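import Pool.Agent.LPS.Iso

/-!
# ChL: closure properties of `ChF`
-/

namespace Pool.Agent.LPS

variable {B : Type} [CStarAlgebra B] {f u v : B}

theorem ChF.spec (hu : ChF f u) : star u * u = 1 ∧ u * star u = 1 ∧ u * f = f := by
  obtain ⟨n, ζ, -, hn, hζ, -⟩ := hu 1 one_pos
  rw [← hn]
  exact hζ n

theorem ChF_one (f : B) : ChF f (1 : B) := by
  intro δ hδ
  refine ⟨0, fun _ => 1, rfl, rfl, fun i => ?_, fun i hi => absurd hi (Nat.not_lt_zero i)⟩
  simp

theorem ChF.mul (hu : ChF f u) (hv : ChF f v) : ChF f (u * v) := by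
  intro δ hδ
  obtain ⟨n, ζ, h0, hn, hζ, hs⟩ := hu δ hδ
  obtain ⟨k, ξ, g0, gk, gξ, gs⟩ := hv δ hδ
  refine ⟨n + k, fun i => if i ≤ n then ζ i else u * ξ (i - n), ?_, ?_, ?_, ?_⟩
  · simp [h0]
  · rcases Nat.eq_zero_or_pos k with h | h
    · subst h
      have e : v = 1 := by rw [← gk, g0]
      simp [hn, e]
    · have h1 : ¬ (n + k ≤ n) := by omega
      simp only [h1, if_false]
      rw [Nat.add_sub_cancel_left, gk]
  · intro i
    have hu' := hu.spec
    by_cases h : i ≤ n
    · simp only [h, if_true]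
      exact hζ i
    · simp only [h, if_false]
      obtain ⟨q1, q2, q3⟩ := gξ (i - n)
      refine ⟨?_, ?_, ?_⟩
      · rw [star_mul, mul_assoc, ← mul_assoc (star u), hu'.1, one_mul, q1]
      · rw [star_mul, mul_assoc, ← mul_assoc (ξ (i - n)), q2, one_mul, hu'.2.1]
      · rw [mul_assoc, q3, hu'.2.2]
  · intro i hi
    rcases lt_trichotomy i n with h | h | h
    · have h1 : i + 1 ≤ n := h
      have h2 : i ≤ n := h.le
      simp only [h1, h2, if_true]
      exact hs i h
    · subst h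
      have h1 : ¬ (i + 1 ≤ i) := by omega
      simp only [h1, le_refl, if_true, if_false]
      have h2 : i + 1 - i = 1 := by omega
      rw [h2, hn]
      have h3 := gs 0 (by omega)
      rw [g0] at h3
      have h4 : u * ξ 1 - u = u * (ξ 1 - 1) := by rw [mul_sub, mul_one]
      rw [h4]
      calc ‖u * (ξ 1 - 1)‖ ≤ ‖u‖ * ‖ξ 1 - 1‖ := norm_mul_le _ _
        _ ≤ 1 * δ := mul_le_mul (norm_le_one_of_star_mul (star_one B) (mul_one 1) hu.spec.1)
            (by simpa using h3) (norm_nonneg _) zero_le_one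
        _ = δ := one_mul δ
    · have h1 : ¬ (i + 1 ≤ n) := by omega
      have h2 : ¬ (i ≤ n) := by omega
      simp only [h1, h2, if_false]
      have h3 : i + 1 - n = (i - n) + 1 := by omega
      rw [h3, ← mul_sub]
      calc ‖u * (ξ (i - n + 1) - ξ (i - n))‖ ≤ ‖u‖ * ‖ξ (i - n + 1) - ξ (i - n)‖ :=
            norm_mul_le _ _
        _ ≤ 1 * δ := mul_le_mul (norm_le_one_of_star_mul (star_one B) (mul_one 1) hu.spec.1)
            (gs _ (by omega)) (norm_nonneg _) zero_le_one
        _ = δ := one_mul δ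

theorem ChF.mono {x : B} (hx : star x * x = 1) {m n : ℕ} (hmn : m ≤ n)
    (hu : ChF (EE x m) u) : ChF (EE x n) u := by
  intro δ hδ
  obtain ⟨k, ζ, h0, hk, hζ, hs⟩ := hu δ hδ
  refine ⟨k, ζ, h0, hk, fun i => ⟨(hζ i).1, (hζ i).2.1, ?_⟩, hs⟩
  rw [← EE_mul hx hmn, ← mul_assoc, (hζ i).2.2]

/-- The endomorphism. -/
noncomputable def th (x y : B) : B := x * y * star x + pp x

theorem th_one (x : B) : th x 1 = 1 := by
  rw [th, pp, mul_one]; abel

theorem th_mul {x : B} (hx : star x * x = 1) (y z : B) : th x y * th x z = th x (y * z) := by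
  have h1 := pp_x hx
  have h2 := star_x_pp hx
  have h3 := pp_pp hx
  rw [th, th, th]
  calc (x * y * star x + pp x) * (x * z * star x + pp x)
      = x * y * (star x * x) * z * star x + x * y * (star x * pp x) +
        (pp x * x) * z * star x + pp x * pp x := by noncomm_ring
    _ = _ := by rw [hx, h1, h2, h3]; noncomm_ring

theorem th_star (x y : B) : star (th x y) = th x (star y) := by
  rw [th, th, star_add, star_mul, star_mul, star_star, pp_star, mul_assoc]

theorem th_sub (x y z : B) : th x y - th x z = x * (y - z) * star x := by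
  rw [th, th]; noncomm_ring

theorem norm_th_sub {x : B} (hx : star x * x = 1) (y z : B) :
    ‖th x y - th x z‖ ≤ ‖y - z‖ := by
  rw [th_sub]
  have h := norm_x_le hx
  calc ‖x * (y - z) * star x‖ ≤ ‖x * (y - z)‖ * ‖star x‖ := norm_mul_le _ _
    _ ≤ (‖x‖ * ‖y - z‖) * ‖star x‖ := mul_le_mul_of_nonneg_right (norm_mul_le _ _) (norm_nonneg _)
    _ ≤ (1 * ‖y - z‖) * 1 := by
        rw [norm_star]
        exact mul_le_mul (mul_le_mul_of_nonneg_right h (norm_nonneg _)) h (norm_nonneg _)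
          (by positivity)
    _ = ‖y - z‖ := by ring

theorem th_EE {x : B} (hx : star x * x = 1) (m : ℕ) {y : B} (hy : y * EE x m = EE x m) :
    th x y * EE x (m + 1) = EE x (m + 1) := by
  have e : EE x (m + 1) = x * EE x m * star x := by
    rw [EE, EE, pow_succ', star_mul]; simp only [mul_assoc]
  rw [th, e]
  calc (x * y * star x + pp x) * (x * EE x m * star x)
      = x * y * (star x * x) * EE x m * star x + (pp x * x) * EE x m * star x := by noncomm_ring
    _ = x * (y * EE x m) * star x := by rw [hx, pp_x hx]; noncomm_ring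
    _ = _ := by rw [hy]

theorem ChF.th {x : B} (hx : star x * x = 1) {m : ℕ} (hu : ChF (EE x m) u) :
    ChF (EE x (m + 1)) (th x u) := by
  intro δ hδ
  obtain ⟨k, ζ, h0, hk, hζ, hs⟩ := hu δ hδ
  refine ⟨k, fun i => LPS.th x (ζ i), ?_, ?_, fun i => ⟨?_, ?_, ?_⟩, fun i hi => ?_⟩
  · change LPS.th x (ζ 0) = 1
    rw [h0, th_one]
  · change LPS.th x (ζ k) = _
    rw [hk]
  · rw [th_star, th_mul hx, (hζ i).1, th_one]
  · rw [th_star, th_mul hx, (hζ i).2.1, th_one]
  · exact th_EE hx m (hζ i).2.2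
  · exact (norm_th_sub hx _ _).trans (hs i hi)

/-- The functional calculus of a selfadjoint unitary. -/
noncomputable def WW (z : B) (c : ℂ) : B := (1 / 2 : ℂ) • (1 + z) + (c / 2) • (1 - z)

theorem WW_one (z : B) : WW z 1 = 1 := by
  rw [WW, ← smul_add, show (1 + z) + (1 - z) = (2 : ℂ) • (1 : B) by rw [two_smul]; abel, smul_smul]
  norm_num

theorem WW_neg_one (z : B) : WW z (-1) = z := by
  rw [WW, show ((-1 : ℂ) / 2) • (1 - z) = (1 / 2 : ℂ) • (z - 1) by
    rw [← neg_sub z 1, smul_neg, neg_div, neg_smul, neg_neg]]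
  rw [← smul_add, show (1 + z) + (z - 1) = (2 : ℂ) • z by rw [two_smul]; abel, smul_smul]
  norm_num

theorem WW_mul {z : B} (hzz : z * z = 1) (a b : ℂ) : WW z a * WW z b = WW z (a * b) := by
  have h1 : (1 + z) * (1 + z) = (2 : ℂ) • (1 + z) := by
    rw [two_smul]
    calc (1 + z) * (1 + z) = 1 + z + z + z * z := by noncomm_ring
      _ = _ := by rw [hzz]; abel
  have h2 : (1 - z) * (1 - z) = (2 : ℂ) • (1 - z) := by
    rw [two_smul]
    calc (1 - z) * (1 - z) = 1 - z - z + z * z := by noncomm_ring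
      _ = _ := by rw [hzz]; abel
  have h3 : (1 + z) * (1 - z) = 0 := by
    calc (1 + z) * (1 - z) = 1 - z * z := by noncomm_ring
      _ = 0 := by rw [hzz, sub_self]
  have h4 : (1 - z) * (1 + z) = 0 := by
    calc (1 - z) * (1 + z) = 1 - z * z := by noncomm_ring
      _ = 0 := by rw [hzz, sub_self]
  rw [WW, WW, WW, add_mul, mul_add, mul_add, smul_mul_smul_comm, smul_mul_smul_comm,
    smul_mul_smul_comm, smul_mul_smul_comm, h1, h2, h3, h4, smul_zero, smul_zero, smul_smul,
    smul_smul, add_zero, zero_add]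
  congr 2
  · norm_num
  · ring

theorem WW_star {z : B} (hz : star z = z) (c : ℂ) :
    star (WW z c) = WW z ((starRingEnd ℂ) c) := by
  rw [WW, WW, star_add, star_smul, star_smul, star_add, star_sub, star_one, hz]
  congr 2
  · simp
  · simp

/-- A selfadjoint unitary is connected to `1`. -/
theorem ChF_of_invol {z : B} (hz : star z = z) (hzz : z * z = 1) (hzf : z * f = f) : ChF f z := by
  intro δ hδ
  obtain ⟨n, hn⟩ := exists_nat_gt (Real.pi / δ)
  have hn0 : (0 : ℝ) < n := lt_of_le_of_lt (by positivity) hn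
  have hnn : (n : ℂ) ≠ 0 := by exact_mod_cast hn0.ne'
  obtain ⟨c, hcdef⟩ : ∃ c : ℕ → ℂ,
      c = fun k : ℕ => Complex.exp (Complex.I * ((Real.pi * (k : ℝ) / (n : ℝ) : ℝ) : ℂ)) := ⟨_, rfl⟩
  have hn1 : ∀ k, ‖c k‖ = 1 := by
    intro k
    rw [hcdef]
    exact Complex.norm_exp_I_mul_ofReal _
  have hc : ∀ k, (starRingEnd ℂ) (c k) * c k = 1 := by
    intro k
    rw [mul_comm, Complex.mul_conj, Complex.normSq_eq_norm_sq, hn1 k]
    simp
  refine ⟨n, fun k => WW z (c k), ?_, ?_, fun k => ⟨?_, ?_, ?_⟩, fun k hk => ?_⟩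
  · have : c 0 = 1 := by rw [hcdef]; simp
    change WW z (c 0) = 1
    rw [this, WW_one]
  · have : c n = -1 := by
      rw [hcdef]
      have e : (Real.pi * n / n : ℝ) = Real.pi := by field_simp
      change Complex.exp (Complex.I * ((Real.pi * n / n : ℝ) : ℂ)) = -1
      rw [e, mul_comm, Complex.exp_pi_mul_I]
    change WW z (c n) = z
    rw [this, WW_neg_one]
  · rw [WW_star hz, WW_mul hzz, hc, WW_one]
  · rw [WW_star hz, WW_mul hzz, mul_comm, hc, WW_one]
  · have h1 : (1 + z) * f = (2 : ℂ) • f := by rw [add_mul, one_mul, hzf, two_smul]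
    have h2 : (1 - z) * f = 0 := by rw [sub_mul, one_mul, hzf, sub_self]
    change WW z (c k) * f = f
    rw [WW, add_mul, smul_mul_assoc, smul_mul_assoc, h1, h2, smul_zero, add_zero, smul_smul]
    norm_num
  · change ‖WW z (c (k + 1)) - WW z (c k)‖ ≤ δ
    have e1 : WW z (c (k + 1)) - WW z (c k) = ((c (k + 1) - c k) / 2) • (1 - z) := by
      rw [WW, WW, sub_div, sub_smul]; abel
    have e2 : c (k + 1) = c k * Complex.exp (Complex.I * ((Real.pi / n : ℝ) : ℂ)) := by
      rw [hcdef]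
      change Complex.exp (Complex.I * ((Real.pi * ((k + 1 : ℕ) : ℝ) / n : ℝ) : ℂ)) =
        Complex.exp (Complex.I * ((Real.pi * k / n : ℝ) : ℂ)) * _
      rw [← Complex.exp_add]
      congr 1
      push_cast
      ring
    have e3 : ‖c (k + 1) - c k‖ ≤ Real.pi / n := by
      rw [e2, show c k * Complex.exp (Complex.I * ((Real.pi / n : ℝ) : ℂ)) - c k =
        c k * (Complex.exp (Complex.I * ((Real.pi / n : ℝ) : ℂ)) - 1) by ring, norm_mul, hn1 k,
        one_mul]
      refine Real.norm_exp_I_mul_ofReal_sub_one_le.trans ?_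
      rw [Real.norm_eq_abs, abs_of_nonneg (by positivity)]
    have e4 : ‖(1 : B) - z‖ ≤ 2 := by
      have h1 : ‖(1 : B)‖ ≤ 1 := norm_le_one_of_proj (star_one B) (mul_one 1)
      have h2 : ‖z‖ ≤ 1 := norm_le_one_of_star_mul (star_one B) (mul_one 1) (by rw [hz, hzz])
      refine (norm_sub_le _ _).trans ?_
      linarith
    have e5 : Real.pi / n ≤ δ := by
      rw [div_le_iff₀ hn0]
      have := (div_lt_iff₀ hδ).1 hn
      linarith
    rw [e1, norm_smul, norm_div]
    have e6 : ‖(2 : ℂ)‖ = 2 := by simp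
    rw [e6]
    calc ‖c (k + 1) - c k‖ / 2 * ‖1 - z‖ ≤ (Real.pi / n) / 2 * 2 :=
          mul_le_mul (div_le_div_of_nonneg_right e3 (by norm_num)) e4 (norm_nonneg _)
            (by positivity)
      _ = Real.pi / n := by ring
      _ ≤ δ := e5

end Pool.Agent.LPS
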