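import Pool.Agent.LPS.Iso
import Pool.Agent.AUE.NS

/-!
# Core: the cyclic exchange of approximate direct summands

`h i` (`i ∈ ι` finite) with `h i * h j = δ r`. For a permutation `σ` of `ι`:
`zz r h σ = 1 - ∑ h i h i* + ∑ h (σ i) h i*`, a unitary. If `x h i = h i X i + y i` with unitaries
`X i` of `r B r`, and `ω = 1 + h ρ (w - 1) h ρ*`, then `‖ω x z - z x‖ ≤ η + 4 ∑ ‖y i‖ + 2 ‖y ρ‖`.
-/

namespace Pool.Agent.LPS

open Pool.Agent.AUE

variable {B : Type} [CStarAlgebra B] {ι : Type} [Fintype ι] [DecidableEq ι]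

/-- Orthogonal copies of the projection `r`. -/
structure Frame (r : B) (h : ι → B) : Prop where
  star_r : star r = r
  r_r : r * r = r
  hh : ∀ i j, star (h i) * h j = if i = j then r else 0
  hr : ∀ i, h i * r = h i

/-- The support of the frame. -/
noncomputable def QQ (h : ι → B) : B := ∑ i, h i * star (h i)

/-- The partial isometry which moves the copy `i` to the copy `σ i`. -/
noncomputable def UU (h : ι → B) (σ : Equiv.Perm ι) : B := ∑ i, h (σ i) * star (h i)

/-- The unitary which moves the copy `i` to the copy `σ i`. -/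
noncomputable def zz (h : ι → B) (σ : Equiv.Perm ι) : B := 1 - QQ h + UU h σ

variable {r : B} {h : ι → B}

theorem UU_one (h : ι → B) : UU h 1 = QQ h := by
  simp [UU, QQ]

theorem UU_star (h : ι → B) (σ : Equiv.Perm ι) : star (UU h σ) = UU h σ⁻¹ := by
  rw [UU, UU, star_sum, ← Equiv.sum_comp σ (fun i => h (σ⁻¹ i) * star (h i))]
  refine Finset.sum_congr rfl fun i _ => ?_
  have e : σ⁻¹ (σ i) = i := by simp
  rw [star_mul, star_star, e]

theorem Frame.star_hr (hF : Frame r h) (i : ι) : r * star (h i) = star (h i) := by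
  have := congrArg star (hF.hr i)
  rwa [star_mul, hF.star_r] at this

theorem Frame.UU_mul (hF : Frame r h) (σ τ : Equiv.Perm ι) : UU h σ * UU h τ = UU h (σ * τ) := by
  rw [UU, UU, UU, Finset.sum_mul_sum, Finset.sum_comm]
  refine Finset.sum_congr rfl fun j _ => ?_
  rw [Finset.sum_eq_single_of_mem (τ j) (Finset.mem_univ _)]
  · rw [mul_assoc, ← mul_assoc (star (h (τ j))), hF.hh, if_pos rfl, hF.star_hr]
    rfl
  · intro i _ hi
    rw [mul_assoc, ← mul_assoc (star (h i)), hF.hh, if_neg hi, zero_mul, mul_zero]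

theorem Frame.UU_h (hF : Frame r h) (σ : Equiv.Perm ι) (j : ι) : UU h σ * h j = h (σ j) := by
  rw [UU, Finset.sum_mul, Finset.sum_eq_single_of_mem j (Finset.mem_univ _)]
  · rw [mul_assoc, hF.hh, if_pos rfl, hF.hr]
  · intro i _ hi
    rw [mul_assoc, hF.hh, if_neg hi, mul_zero]

theorem Frame.QQ_h (hF : Frame r h) (j : ι) : QQ h * h j = h j := by
  rw [← UU_one, hF.UU_h]
  rfl

theorem Frame.UU_QQ (hF : Frame r h) (σ : Equiv.Perm ι) : UU h σ * QQ h = UU h σ := by
  rw [← UU_one, hF.UU_mul, mul_one]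

theorem Frame.QQ_UU (hF : Frame r h) (σ : Equiv.Perm ι) : QQ h * UU h σ = UU h σ := by
  rw [← UU_one, hF.UU_mul, one_mul]

theorem Frame.QQ_QQ (hF : Frame r h) : QQ h * QQ h = QQ h := by
  rw [← UU_one, hF.UU_mul, one_mul]

theorem QQ_star (h : ι → B) : star (QQ h) = QQ h := by
  rw [← UU_one, UU_star, inv_one]

theorem zz_star (h : ι → B) (σ : Equiv.Perm ι) : star (zz h σ) = zz h σ⁻¹ := by
  rw [zz, zz, star_add, star_sub, star_one, QQ_star, UU_star]

theorem zz_one (h : ι → B) : zz h 1 = 1 := by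
  rw [zz, UU_one, sub_add_cancel]

theorem Frame.zz_mul (hF : Frame r h) (σ τ : Equiv.Perm ι) : zz h σ * zz h τ = zz h (σ * τ) := by
  have h1 : zz h σ * zz h τ = 1 - QQ h - QQ h + QQ h * QQ h + (UU h τ - QQ h * UU h τ) +
      (UU h σ - UU h σ * QQ h) + UU h σ * UU h τ := by
    rw [zz, zz]; noncomm_ring
  rw [h1, hF.QQ_QQ, hF.QQ_UU, hF.UU_QQ, hF.UU_mul, zz]
  abel

theorem Frame.zz_unitary (hF : Frame r h) (σ : Equiv.Perm ι) :
    star (zz h σ) * zz h σ = 1 ∧ zz h σ * star (zz h σ) = 1 := by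
  rw [zz_star, hF.zz_mul, hF.zz_mul, inv_mul_cancel, mul_inv_cancel, zz_one]
  exact ⟨rfl, rfl⟩

theorem Frame.norm_h (hF : Frame r h) (i : ι) : ‖h i‖ ≤ 1 :=
  norm_le_one_of_star_mul hF.star_r hF.r_r (by rw [hF.hh, if_pos rfl])

theorem norm_le_of_unitary {z : B} (hz : star z * z = 1) : ‖z‖ ≤ 1 :=
  norm_le_one_of_star_mul (star_one B) (mul_one 1) hz

/-- A sum `∑ h (σ i) x_i h i*` has norm at most the maximum of the `‖x_i‖`. -/
theorem Frame.norm_sum_le (hF : Frame r h) (σ : Equiv.Perm ι) (X : ι → B) (M : ℝ) (hM : 0 ≤ M)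
    (hX : ∀ i, ‖X i‖ ≤ M) : ‖∑ i, h (σ i) * X i * star (h i)‖ ≤ M := by
  refine norm_orth_sum_le Finset.univ (fun i => h (σ i) * X i * star (h i)) M hM ?_ ?_ ?_
  · intro i _ j _ hij
    have h1 : star (h (σ i)) * h (σ j) = 0 := by
      rw [hF.hh, if_neg (fun h => hij (σ.injective h))]
    calc star (h (σ i) * X i * star (h i)) * (h (σ j) * X j * star (h j))
        = h i * star (X i) * (star (h (σ i)) * h (σ j)) * X j * star (h j) := by
          simp only [star_mul, star_star, mul_assoc]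
      _ = 0 := by rw [h1, mul_zero, zero_mul, zero_mul]
  · intro i _ j _ hij
    have h1 : star (h i) * h j = 0 := by rw [hF.hh, if_neg hij]
    calc h (σ i) * X i * star (h i) * star (h (σ j) * X j * star (h j))
        = h (σ i) * X i * (star (h i) * h j) * star (X j) * star (h (σ j)) := by
          simp only [star_mul, star_star, mul_assoc]
      _ = 0 := by rw [h1, mul_zero, zero_mul, zero_mul]
  · intro i _
    calc ‖h (σ i) * X i * star (h i)‖ ≤ ‖h (σ i)‖ * ‖X i‖ * ‖star (h i)‖ :=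
          (norm_mul_le _ _).trans (mul_le_mul_of_nonneg_right (norm_mul_le _ _) (norm_nonneg _))
      _ ≤ 1 * M * 1 := by
          rw [norm_star]
          exact mul_le_mul (mul_le_mul (hF.norm_h _) (hX i) (norm_nonneg _) zero_le_one)
            (hF.norm_h i) (norm_nonneg _) (by linarith)
      _ = M := by ring

theorem Frame.norm_UU (hF : Frame r h) (σ : Equiv.Perm ι) : ‖UU h σ‖ ≤ 1 := by
  have h1 : UU h σ = ∑ i, h (σ i) * r * star (h i) :=
    Finset.sum_congr rfl fun i _ => by rw [hF.hr]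
  rw [h1]
  exact hF.norm_sum_le σ _ 1 zero_le_one fun i => norm_le_one_of_proj hF.star_r hF.r_r

/-- The core estimate. -/
theorem Frame.core (hF : Frame r h) {x w : B} (hx : star x * x = 1) (X X' y : ι → B) (ρ : ι)
    (hy : ∀ i, x * h i = h i * X i + y i) (hXr : ∀ i, r * X i = X i)
    (hXu : ∀ i, star (X i) * X i = r) (hXu' : ∀ i, X i * star (X i) = r)
    (hw : ‖w - 1‖ ≤ 2) (hX' : ∀ i, i ≠ ρ → X' i = X i) (hX'ρ : X' ρ = w * X ρ)
    (σ : Equiv.Perm ι) {η : ℝ} (hη0 : 0 ≤ η) (hη : ∀ i, ‖X' (σ i) - X i‖ ≤ η) :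
    ‖(1 + h ρ * (w - 1) * star (h ρ)) * x * zz h σ - zz h σ * x‖ ≤
      η + 4 * (∑ i, ‖y i‖) + 2 * ‖y ρ‖ := by
  -- `h i* x`
  have hs : ∀ i, star (h i) * x = X i * star (h i) - X i * star (y i) * x := by
    intro i
    have e1 : star x * (h i * X i) = h i - star x * y i := by
      have e2 : star x * (x * h i) = h i := by rw [← mul_assoc, hx, one_mul]
      rw [hy i, mul_add] at e2
      exact eq_sub_of_add_eq e2
    have e3 : star x * h i = h i * star (X i) - star x * y i * star (X i) := by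
      have e4 : star x * (h i * X i) * star (X i) = star x * h i := by
        rw [mul_assoc, mul_assoc, hXu', hF.hr]
      rw [← e4, e1, sub_mul]
    have e5 := congrArg star e3
    simp only [star_mul, star_sub, star_star] at e5
    rw [e5, mul_assoc]
  obtain ⟨S, hS⟩ : ∃ S, S = ∑ i, h i * X i * star (h i) := ⟨_, rfl⟩
  obtain ⟨Y, hY⟩ : ∃ Y, Y = ∑ i, y i * star (h i) := ⟨_, rfl⟩
  have hxQ : x * QQ h = S + Y := by
    rw [hS, hY, QQ, Finset.mul_sum, ← Finset.sum_add_distrib]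
    exact Finset.sum_congr rfl fun i _ => by rw [← mul_assoc, hy i, add_mul]
  have hSY : S * star Y = ∑ i, h i * X i * star (y i) := by
    rw [hS, hY, star_sum, Finset.sum_mul_sum]
    refine Finset.sum_congr rfl fun i _ => ?_
    rw [Finset.sum_eq_single_of_mem i (Finset.mem_univ _)]
    · rw [star_mul, star_star, mul_assoc, ← mul_assoc (star (h i)), hF.hh, if_pos rfl,
        ← mul_assoc]
      have e1 : X i * r = X i := by
        have := hXu' i
        have e2 : X i * r = X i * (star (X i) * X i) := by rw [hXu]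
        rw [e2, ← mul_assoc, this, hXr]
      rw [mul_assoc (h i), e1]
    · intro j _ hj
      rw [star_mul, star_star, mul_assoc, ← mul_assoc (star (h i)), hF.hh,
        if_neg (fun h => hj h.symm), zero_mul, mul_zero]
  have hQx : QQ h * x = S - S * star Y * x := by
    rw [hSY, hS, QQ, Finset.sum_mul, Finset.sum_mul, ← Finset.sum_sub_distrib]
    refine Finset.sum_congr rfl fun i _ => ?_
    rw [mul_assoc, hs i, mul_sub]
    simp only [mul_assoc]
  have hSU : S * UU h σ = ∑ i, h (σ i) * X (σ i) * star (h i) := by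
    rw [hS, UU, Finset.sum_mul_sum, Finset.sum_comm]
    refine Finset.sum_congr rfl fun j _ => ?_
    rw [Finset.sum_eq_single_of_mem (σ j) (Finset.mem_univ _)]
    · rw [mul_assoc, ← mul_assoc (star (h (σ j))), hF.hh, if_pos rfl, hF.star_hr]
    · intro i _ hi
      rw [mul_assoc, ← mul_assoc (star (h i)), hF.hh, if_neg hi, zero_mul, mul_zero]
  have hUS : UU h σ * S = ∑ i, h (σ i) * X i * star (h i) := by
    rw [hS, UU, Finset.sum_mul_sum]
    refine Finset.sum_congr rfl fun j _ => ?_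
    rw [Finset.sum_eq_single_of_mem j (Finset.mem_univ _)]
    · rw [mul_assoc, ← mul_assoc (star (h j)), ← mul_assoc (star (h j)), hF.hh, if_pos rfl,
        hXr, ← mul_assoc]
    · intro i _ hi
      rw [mul_assoc, ← mul_assoc (star (h j)), ← mul_assoc (star (h j)), hF.hh,
        if_neg (fun h => hi h.symm), zero_mul, zero_mul, mul_zero]
  -- the part of `w`
  obtain ⟨j₀, hj₀⟩ : ∃ j₀, σ j₀ = ρ := ⟨σ.symm ρ, by simp⟩
  have hρz : star (h ρ) * zz h σ = star (h j₀) := by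
    have e1 : star (h ρ) * QQ h = star (h ρ) := by
      have := congrArg star (hF.QQ_h ρ)
      rwa [star_mul, QQ_star] at this
    have e2 : star (h ρ) * UU h σ = star (h j₀) := by
      have := congrArg star (hF.UU_h σ⁻¹ ρ)
      rw [star_mul, UU_star, inv_inv] at this
      have e3 : σ⁻¹ ρ = j₀ := by rw [← hj₀]; simp
      rw [this, e3]
    rw [zz, mul_add, mul_sub, mul_one, e1, sub_self, zero_add, e2]
  have hwpart : h ρ * (w - 1) * star (h ρ) * x * zz h σ =
      h ρ * (w - 1) * X ρ * star (h j₀) -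
        h ρ * (w - 1) * X ρ * star (y ρ) * (x * zz h σ) := by
    calc h ρ * (w - 1) * star (h ρ) * x * zz h σ
        = h ρ * (w - 1) * (star (h ρ) * x) * zz h σ := by simp only [mul_assoc]
      _ = h ρ * (w - 1) * X ρ * (star (h ρ) * zz h σ) -
          h ρ * (w - 1) * X ρ * star (y ρ) * (x * zz h σ) := by
          rw [hs ρ]; noncomm_ring
      _ = _ := by rw [hρz]
  have hD : ∑ i, h (σ i) * (X' (σ i) - X i) * star (h i) =
      S * UU h σ - UU h σ * S + h ρ * (w - 1) * X ρ * star (h j₀) := by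
    rw [hSU, hUS, ← Finset.sum_sub_distrib]
    have e1 : h ρ * (w - 1) * X ρ * star (h j₀) =
        ∑ i, if i = j₀ then h ρ * (w - 1) * X ρ * star (h j₀) else 0 := by
      rw [Finset.sum_ite_eq' Finset.univ j₀]
      simp
    rw [e1, ← Finset.sum_add_distrib]
    refine Finset.sum_congr rfl fun i _ => ?_
    split_ifs with hi
    · subst hi
      rw [hj₀, hX'ρ]
      noncomm_ring
    · rw [hX' (σ i) (fun h => hi (σ.injective (h.trans hj₀.symm)))]
      noncomm_ring
  obtain ⟨z, hz⟩ : ∃ z, z = zz h σ := ⟨_, rfl⟩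
  have hmain : (1 + h ρ * (w - 1) * star (h ρ)) * x * zz h σ - zz h σ * x =
      ∑ i, h (σ i) * (X' (σ i) - X i) * star (h i) + Y * UU h σ +
        UU h σ * (S * star Y * x) - S * star Y * x - Y -
        h ρ * (w - 1) * X ρ * star (y ρ) * (x * zz h σ) := by
    have e1 : (1 + h ρ * (w - 1) * star (h ρ)) * x * zz h σ =
        x * zz h σ + h ρ * (w - 1) * star (h ρ) * x * zz h σ := by noncomm_ring
    have e2 : x * zz h σ = x - x * QQ h + (x * QQ h) * UU h σ := by
      rw [mul_assoc, hF.QQ_UU, zz]; noncomm_ring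
    have e3 : zz h σ * x = x - QQ h * x + UU h σ * (QQ h * x) := by
      rw [← mul_assoc, hF.UU_QQ, zz]; noncomm_ring
    rw [e1, hwpart, hD]
    rw [e2, e3, hxQ, hQx]
    noncomm_ring
  rw [hmain]
  have nU := hF.norm_UU σ
  have nx := norm_x_le hx
  have nz : ‖zz h σ‖ ≤ 1 := norm_le_of_unitary (hF.zz_unitary σ).1
  have nX : ∀ i, ‖X i‖ ≤ 1 := fun i => norm_le_one_of_star_mul hF.star_r hF.r_r (hXu i)
  have nS : ‖S‖ ≤ 1 := by
    rw [hS]
    exact hF.norm_sum_le 1 X 1 zero_le_one nX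
  have nY : ‖Y‖ ≤ ∑ i, ‖y i‖ := by
    rw [hY]
    refine (_root_.norm_sum_le _ _).trans (Finset.sum_le_sum fun i _ => ?_)
    calc ‖y i * star (h i)‖ ≤ ‖y i‖ * ‖star (h i)‖ := norm_mul_le _ _
      _ ≤ ‖y i‖ * 1 := by
          rw [norm_star]
          exact mul_le_mul_of_nonneg_left (hF.norm_h i) (norm_nonneg _)
      _ = ‖y i‖ := mul_one _
  have n1 : ‖∑ i, h (σ i) * (X' (σ i) - X i) * star (h i)‖ ≤ η :=
    hF.norm_sum_le σ _ η hη0 hη
  have hYs : 0 ≤ ‖Y‖ := norm_nonneg _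
  have n2 : ‖Y * UU h σ‖ ≤ ‖Y‖ := by
    calc _ ≤ ‖Y‖ * ‖UU h σ‖ := norm_mul_le _ _
      _ ≤ ‖Y‖ * 1 := mul_le_mul_of_nonneg_left nU hYs
      _ = ‖Y‖ := mul_one _
  have n4 : ‖S * star Y * x‖ ≤ ‖Y‖ := by
    calc _ ≤ ‖S * star Y‖ * ‖x‖ := norm_mul_le _ _
      _ ≤ (‖S‖ * ‖star Y‖) * ‖x‖ := mul_le_mul_of_nonneg_right (norm_mul_le _ _) (norm_nonneg _)
      _ ≤ (1 * ‖Y‖) * 1 := by
          rw [norm_star]
          exact mul_le_mul (mul_le_mul_of_nonneg_right nS hYs) nx (norm_nonneg _) (by linarith)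
      _ = ‖Y‖ := by ring
  have n3 : ‖UU h σ * (S * star Y * x)‖ ≤ ‖Y‖ := by
    calc _ ≤ ‖UU h σ‖ * ‖S * star Y * x‖ := norm_mul_le _ _
      _ ≤ 1 * ‖Y‖ := mul_le_mul nU n4 (norm_nonneg _) zero_le_one
      _ = ‖Y‖ := one_mul _
  have n5 : ‖h ρ * (w - 1) * X ρ * star (y ρ) * (x * zz h σ)‖ ≤ 2 * ‖y ρ‖ := by
    have m1 : ‖h ρ * (w - 1)‖ ≤ 1 * 2 :=
      (norm_mul_le _ _).trans (mul_le_mul (hF.norm_h ρ) hw (norm_nonneg _) zero_le_one)
    have m2 : ‖h ρ * (w - 1) * X ρ‖ ≤ 1 * 2 * 1 :=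
      (norm_mul_le _ _).trans (mul_le_mul m1 (nX ρ) (norm_nonneg _) (by norm_num))
    have m3 : ‖h ρ * (w - 1) * X ρ * star (y ρ)‖ ≤ 1 * 2 * 1 * ‖y ρ‖ := by
      refine (norm_mul_le _ _).trans ?_
      rw [norm_star]
      exact mul_le_mul_of_nonneg_right m2 (norm_nonneg _)
    have m4 : ‖x * zz h σ‖ ≤ 1 * 1 :=
      (norm_mul_le _ _).trans (mul_le_mul nx nz (norm_nonneg _) zero_le_one)
    refine (norm_mul_le _ _).trans ?_
    calc _ ≤ (1 * 2 * 1 * ‖y ρ‖) * (1 * 1) :=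
          mul_le_mul m3 m4 (norm_nonneg _) (by positivity)
      _ = 2 * ‖y ρ‖ := by ring
  calc _ ≤ η + ‖Y‖ + ‖Y‖ + ‖Y‖ + ‖Y‖ + 2 * ‖y ρ‖ := by
        refine (norm_sub_le _ _).trans (add_le_add ?_ n5)
        refine (norm_sub_le _ _).trans (add_le_add ?_ le_rfl)
        refine (norm_sub_le _ _).trans (add_le_add ?_ n4)
        refine (norm_add_le _ _).trans (add_le_add ?_ n3)
        exact (norm_add_le _ _).trans (add_le_add n1 n2)
    _ ≤ η + 4 * (∑ i, ‖y i‖) + 2 * ‖y ρ‖ := by linarith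

end Pool.Agent.LPS
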