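import Mathlib

/-!
# LPS: chains of unitaries fixing an element (for the loop equation)
-/

namespace Pool.Agent.LPS

/-- `u` is connected to `1` by chains with arbitrarily small steps of unitaries `ζ` with
`ζ * f = f`. -/
def ChF {B : Type} [CStarAlgebra B] (f u : B) : Prop :=
  ∀ δ : ℝ, 0 < δ → ∃ (n : ℕ) (ζ : ℕ → B), ζ 0 = 1 ∧ ζ n = u ∧
    (∀ i, star (ζ i) * ζ i = 1 ∧ ζ i * star (ζ i) = 1 ∧ ζ i * f = f) ∧
    ∀ i < n, ‖ζ (i + 1) - ζ i‖ ≤ δ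

end Pool.Agent.LPS
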