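import Pool.Agent.LPS.Iso
import Pool.Agent.AUE.NS

/-!
# Fr: partial isometries between floors, diagonal operators, the cyclic shift
-/

namespace Pool.Agent.LPS

open Pool.Agent.AUE

variable {B : Type} [CStarAlgebra B] {x : B}

/-- Moves the floor `s` to the floor `β s` (`s < L`). -/
noncomputable def fr (x : B) (L : ℕ) (β : ℕ → ℕ) : B :=
  ∑ s ∈ Finset.range L, ee x (β s) * star (ee x s)

theorem ee_star_mul_rr (hx : star x * x = 1) {L s : ℕ} (h : s < L) :
    star (ee x s) * rr x L = star (ee x s) := by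
  have := congrArg star (rr_ee_lt hx h)
  rwa [star_mul, rr_star] at this

theorem fr_rr (hx : star x * x = 1) (L : ℕ) (β : ℕ → ℕ) : fr x L β * rr x L = fr x L β := by
  rw [fr, Finset.sum_mul]
  exact Finset.sum_congr rfl fun s hs => by
    rw [mul_assoc, ee_star_mul_rr hx (Finset.mem_range.1 hs)]

theorem fr_star_mul (hx : star x * x = 1) (L : ℕ) (β γ : ℕ → ℕ) :
    star (fr x L β) * fr x L γ = ∑ s ∈ Finset.range L, ∑ t ∈ Finset.range L,
      if β s = γ t then ee x s * star (ee x t) else 0 := by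
  rw [fr, fr, star_sum, Finset.sum_mul_sum]
  refine Finset.sum_congr rfl fun s _ => Finset.sum_congr rfl fun t _ => ?_
  rw [star_mul, star_star, mul_assoc, ← mul_assoc (star (ee x (β s))), ee_star_ee hx]
  split_ifs with h
  · rw [← mul_assoc, ee_pp hx]
  · rw [zero_mul, mul_zero]

theorem fr_star_mul_self (hx : star x * x = 1) {L : ℕ} {β : ℕ → ℕ}
    (hβ : ∀ s < L, ∀ t < L, β s = β t → s = t) : star (fr x L β) * fr x L β = rr x L := by
  rw [fr_star_mul hx, rr_eq hx]
  refine Finset.sum_congr rfl fun s hs => ?_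
  rw [Finset.sum_eq_single_of_mem s hs, if_pos rfl]
  intro t ht hts
  rw [if_neg fun h => hts (hβ s (Finset.mem_range.1 hs) t (Finset.mem_range.1 ht) h).symm]

theorem fr_star_mul_zero (hx : star x * x = 1) {L : ℕ} {β γ : ℕ → ℕ}
    (h : ∀ s < L, ∀ t < L, β s ≠ γ t) : star (fr x L β) * fr x L γ = 0 := by
  rw [fr_star_mul hx]
  refine Finset.sum_eq_zero fun s hs => Finset.sum_eq_zero fun t ht => ?_
  rw [if_neg (h s (Finset.mem_range.1 hs) t (Finset.mem_range.1 ht))]

theorem fr_mul_star (hx : star x * x = 1) (L : ℕ) (β : ℕ → ℕ) :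
    fr x L β * star (fr x L β) = ∑ s ∈ Finset.range L, ee x (β s) * star (ee x (β s)) := by
  rw [fr, star_sum, Finset.sum_mul_sum]
  refine Finset.sum_congr rfl fun s hs => ?_
  rw [Finset.sum_eq_single_of_mem s hs]
  · rw [star_mul, star_star, mul_assoc, ← mul_assoc (star (ee x s)), ee_star_ee hx, if_pos rfl,
      ← mul_assoc, ee_pp hx]
  · intro t _ ht
    rw [star_mul, star_star, mul_assoc, ← mul_assoc (star (ee x s)), ee_star_ee hx,
      if_neg (fun h => ht h.symm), zero_mul, mul_zero]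

theorem pow_fr (x : B) (L k : ℕ) (β : ℕ → ℕ) :
    x ^ k * fr x L β = fr x L (fun s => β s + k) := by
  rw [fr, fr, Finset.mul_sum]
  exact Finset.sum_congr rfl fun s _ => by rw [← mul_assoc, pow_ee]

theorem norm_fr (hx : star x * x = 1) {L : ℕ} {β : ℕ → ℕ}
    (hβ : ∀ s < L, ∀ t < L, β s = β t → s = t) : ‖fr x L β‖ ≤ 1 :=
  norm_le_one_of_star_mul (rr_star x L) (rr_mul hx L) (fr_star_mul_self hx hβ)

theorem rr_fr (hx : star x * x = 1) {L N : ℕ} {β : ℕ → ℕ} (h : ∀ s < L, β s < N) :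
    rr x N * fr x L β = fr x L β := by
  rw [fr, Finset.mul_sum]
  exact Finset.sum_congr rfl fun s hs => by
    rw [← mul_assoc, rr_ee_lt hx (h s (Finset.mem_range.1 hs))]

theorem rr_fr_zero (hx : star x * x = 1) {L N : ℕ} {β : ℕ → ℕ} (h : ∀ s < L, N ≤ β s) :
    rr x N * fr x L β = 0 := by
  rw [fr, Finset.mul_sum]
  exact Finset.sum_eq_zero fun s hs => by
    rw [← mul_assoc, rr_ee_le hx (h s (Finset.mem_range.1 hs)), zero_mul]

theorem pp_fr (hx : star x * x = 1) {L : ℕ} {β : ℕ → ℕ} (h : ∀ s < L, 0 < β s) :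
    pp x * fr x L β = 0 := by
  rw [fr, Finset.mul_sum]
  refine Finset.sum_eq_zero fun s hs => ?_
  have h1 := h s (Finset.mem_range.1 hs)
  obtain ⟨k, hk⟩ := Nat.exists_eq_succ_of_ne_zero h1.ne'
  rw [hk, Nat.succ_eq_add_one, ← x_ee, ← mul_assoc, ← mul_assoc, pp_x hx, zero_mul, zero_mul]

/-- A diagonal operator on the first `L` floors. -/
noncomputable def dg (x : B) (L : ℕ) (a : ℕ → ℝ) : B :=
  ∑ s ∈ Finset.range L, (a s : ℂ) • (ee x s * star (ee x s))

theorem dg_star (x : B) (L : ℕ) (a : ℕ → ℝ) : star (dg x L a) = dg x L a := by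
  rw [dg, star_sum]
  refine Finset.sum_congr rfl fun s _ => ?_
  rw [star_smul, star_mul, star_star]
  simp

theorem dg_mul (hx : star x * x = 1) (L : ℕ) (a b : ℕ → ℝ) :
    dg x L a * dg x L b = dg x L (fun s => a s * b s) := by
  rw [dg, dg, dg, Finset.sum_mul_sum]
  refine Finset.sum_congr rfl fun s hs => ?_
  rw [Finset.sum_eq_single_of_mem s hs]
  · rw [smul_mul_smul_comm, mul_assoc, ← mul_assoc (star (ee x s)), ee_star_ee hx, if_pos rfl,
      ← mul_assoc, ee_pp hx]
    push_cast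
    rfl
  · intro t _ ht
    rw [smul_mul_smul_comm, mul_assoc, ← mul_assoc (star (ee x s)), ee_star_ee hx,
      if_neg (fun h => ht h.symm), zero_mul, mul_zero, smul_zero]

theorem dg_add (x : B) (L : ℕ) (a b : ℕ → ℝ) :
    dg x L a + dg x L b = dg x L (fun s => a s + b s) := by
  rw [dg, dg, dg, ← Finset.sum_add_distrib]
  refine Finset.sum_congr rfl fun s _ => ?_
  push_cast
  rw [add_smul]

theorem dg_one (hx : star x * x = 1) {L : ℕ} {a : ℕ → ℝ} (h : ∀ s < L, a s = 1) :
    dg x L a = rr x L := by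
  rw [dg, rr_eq hx]
  refine Finset.sum_congr rfl fun s hs => ?_
  rw [h s (Finset.mem_range.1 hs)]
  simp

theorem dg_zero (x : B) {L : ℕ} {a : ℕ → ℝ} (h : ∀ s < L, a s = 0) : dg x L a = 0 := by
  rw [dg]
  refine Finset.sum_eq_zero fun s hs => ?_
  rw [h s (Finset.mem_range.1 hs)]
  simp

theorem dg_rr (hx : star x * x = 1) {L m : ℕ} (hm : m ≤ L) (a : ℕ → ℝ) :
    dg x L a * rr x m = dg x m a := by
  obtain ⟨k, rfl⟩ := Nat.exists_eq_add_of_le hm
  rw [dg, dg, Finset.sum_mul, Finset.sum_range_add]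
  rw [Finset.sum_eq_zero (s := Finset.range k), add_zero]
  · refine Finset.sum_congr rfl fun s hs => ?_
    rw [smul_mul_assoc, mul_assoc, ee_star_mul_rr hx (Finset.mem_range.1 hs)]
  · intro s _
    have h1 : star (ee x (m + s)) * rr x m = 0 := by
      have := congrArg star (rr_ee_le hx (Nat.le_add_right m s))
      rwa [star_mul, rr_star, star_zero] at this
    rw [smul_mul_assoc, mul_assoc, h1, mul_zero, smul_zero]

theorem star_pow_dg (hx : star x * x = 1) {L n : ℕ} (h : L ≤ n) (a : ℕ → ℝ) :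
    star (x ^ n) * dg x L a = 0 := by
  rw [dg, Finset.mul_sum]
  refine Finset.sum_eq_zero fun s hs => ?_
  rw [mul_smul_comm, ← mul_assoc,
    star_pow_ee_lt hx (lt_of_lt_of_le (Finset.mem_range.1 hs) h), zero_mul, smul_zero]

theorem norm_pp (hx : star x * x = 1) : ‖pp x‖ ≤ 1 := norm_le_one_of_proj (pp_star x) (pp_pp hx)

theorem norm_dg (hx : star x * x = 1) {L : ℕ} {a : ℕ → ℝ} {M : ℝ} (hM : 0 ≤ M)
    (h : ∀ s < L, |a s| ≤ M) : ‖dg x L a‖ ≤ M := by
  have e : dg x L a = ∑ s ∈ Finset.range L, ee x s * ((a s : ℂ) • (1 : B)) * star (ee x s) := by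
    rw [dg]
    refine Finset.sum_congr rfl fun s _ => ?_
    rw [mul_smul_comm, mul_one, smul_mul_assoc]
  rw [e]
  refine norm_conj_sum_le _ (fun s => ee x s) (fun s => (a s : ℂ) • (1 : B)) M hM ?_ ?_ ?_
  · intro i _ j _ hij
    rw [ee_star_ee hx, if_neg hij]
  · intro i _
    rw [ee_star_ee hx, if_pos rfl]
    exact norm_pp hx
  · intro i hi
    rw [norm_smul]
    have h1 : ‖(1 : B)‖ ≤ 1 := norm_le_one_of_proj (star_one B) (mul_one 1)
    have h2 : ‖(a i : ℂ)‖ ≤ M := by
      rw [Complex.norm_real]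
      exact h i (Finset.mem_range.1 hi)
    calc ‖(a i : ℂ)‖ * ‖(1 : B)‖ ≤ M * 1 := mul_le_mul h2 h1 (norm_nonneg _) hM
      _ = M := mul_one M

/-- The cyclic shift of the floors `0, …, K`. -/
noncomputable def CC (x : B) (K : ℕ) : B := fr x (K + 1) (fun s => if s = K then 0 else s + 1)

theorem CC_star_mul (hx : star x * x = 1) (K : ℕ) : star (CC x K) * CC x K = rr x (K + 1) := by
  refine fr_star_mul_self hx fun s hs t ht h => ?_
  split_ifs at h <;> omega

theorem CC_eq (x : B) (K : ℕ) : CC x K =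
    ∑ s ∈ Finset.range K, ee x (s + 1) * star (ee x s) + ee x 0 * star (ee x K) := by
  rw [CC, fr, Finset.sum_range_succ, if_pos rfl]
  congr 1
  refine Finset.sum_congr rfl fun s hs => ?_
  rw [if_neg (Finset.mem_range.1 hs).ne]

theorem CC_mul_star (hx : star x * x = 1) (K : ℕ) : CC x K * star (CC x K) = rr x (K + 1) := by
  rw [CC, fr_mul_star hx, rr_eq hx, Finset.sum_range_succ, if_pos rfl, Finset.sum_range_succ']
  congr 1
  refine Finset.sum_congr rfl fun s hs => ?_
  rw [if_neg (Finset.mem_range.1 hs).ne]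

theorem rr_CC (hx : star x * x = 1) (K : ℕ) : rr x (K + 1) * CC x K = CC x K := by
  refine rr_fr hx fun s hs => ?_
  split_ifs <;> omega

/-- `x D - D C` for a diagonal operator `D`. -/
theorem x_dg_sub (hx : star x * x = 1) (K : ℕ) (a : ℕ → ℝ) :
    x * dg x (K + 1) a - dg x (K + 1) a * CC x K =
      x * dg x K (fun s => a s - a (s + 1)) + (a K : ℂ) • (ee x (K + 1) * star (ee x K)) -
        (a 0 : ℂ) • (ee x 0 * star (ee x K)) := by
  have hd : ∀ t < K + 1, dg x (K + 1) a * ee x t = (a t : ℂ) • ee x t := by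
    intro t ht
    rw [dg, Finset.sum_mul, Finset.sum_eq_single_of_mem t (Finset.mem_range.2 ht)]
    · rw [smul_mul_assoc, mul_assoc, ee_star_ee hx, if_pos rfl, ee_pp hx]
    · intro s _ hs
      rw [smul_mul_assoc, mul_assoc, ee_star_ee hx, if_neg hs, mul_zero, smul_zero]
  have h1 : dg x (K + 1) a * CC x K =
      ∑ s ∈ Finset.range K, (a (s + 1) : ℂ) • (ee x (s + 1) * star (ee x s)) +
        (a 0 : ℂ) • (ee x 0 * star (ee x K)) := by
    rw [CC_eq, mul_add, Finset.mul_sum]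
    congr 1
    · refine Finset.sum_congr rfl fun s hs => ?_
      rw [← mul_assoc, hd (s + 1) (by have := Finset.mem_range.1 hs; omega), smul_mul_assoc]
    · rw [← mul_assoc, hd 0 (by omega), smul_mul_assoc]
  have h2 : x * dg x (K + 1) a =
      ∑ s ∈ Finset.range K, (a s : ℂ) • (ee x (s + 1) * star (ee x s)) +
        (a K : ℂ) • (ee x (K + 1) * star (ee x K)) := by
    rw [dg, Finset.mul_sum, Finset.sum_range_succ]
    congr 1
    · refine Finset.sum_congr rfl fun s _ => ?_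
      rw [mul_smul_comm, ← mul_assoc, x_ee]
    · rw [mul_smul_comm, ← mul_assoc, x_ee]
  have h3 : x * dg x K (fun s => a s - a (s + 1)) =
      ∑ s ∈ Finset.range K, (a s : ℂ) • (ee x (s + 1) * star (ee x s)) -
        ∑ s ∈ Finset.range K, (a (s + 1) : ℂ) • (ee x (s + 1) * star (ee x s)) := by
    rw [dg, Finset.mul_sum, ← Finset.sum_sub_distrib]
    refine Finset.sum_congr rfl fun s _ => ?_
    rw [mul_smul_comm, ← mul_assoc, x_ee]
    push_cast
    rw [sub_smul]
  rw [h1, h2, h3]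
  abel

end Pool.Agent.LPS
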