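import Pool.Agent.LPS.Fr

/-!
# Gg: the slowly varying copy around the window

`g = x^(L+1) dg a + x dg b` with `a = 1`, `b = 0` on the floors `< m`, slowly changing to `a = 0`,
`b = 1` on the floor `L - 1`.
-/

namespace Pool.Agent.LPS

variable {B : Type} [CStarAlgebra B] {x : B}

theorem abs_sqrt_sub_sqrt {u v : ℝ} (hu : 0 ≤ u) (hv : 0 ≤ v) : |√u - √v| ≤ √|u - v| := by
  apply Real.le_sqrt_of_sq_le
  rw [sq_abs]
  have h1 : √u * √u = u := Real.mul_self_sqrt hu
  have h2 : √v * √v = v := Real.mul_self_sqrt hv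
  have h3 := Real.sqrt_nonneg u
  have h4 := Real.sqrt_nonneg v
  rcases le_total u v with h | h
  · rw [abs_sub_comm, abs_of_nonneg (sub_nonneg.2 h)]
    have h5 : √u ≤ √v := Real.sqrt_le_sqrt h
    nlinarith
  · rw [abs_of_nonneg (sub_nonneg.2 h)]
    have h5 : √v ≤ √u := Real.sqrt_le_sqrt h
    nlinarith

/-- The ramp. -/
noncomputable def tt (m K s : ℕ) : ℝ := min 1 (((s - m : ℕ) : ℝ) / K)

theorem tt_nonneg (m K s : ℕ) : 0 ≤ tt m K s := le_min zero_le_one (by positivity)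

theorem tt_le (m K s : ℕ) : tt m K s ≤ 1 := min_le_left _ _

theorem tt_zero {m K s : ℕ} (h : s ≤ m) : tt m K s = 0 := by
  rw [tt, Nat.sub_eq_zero_of_le h]
  simp

theorem tt_one {m K : ℕ} (hK : 0 < K) : tt m K (m + K) = 1 := by
  rw [tt, Nat.add_sub_cancel_left, div_self (by positivity), min_self]

theorem tt_step {m K : ℕ} (hK : 0 < K) (s : ℕ) : |tt m K s - tt m K (s + 1)| ≤ 1 / K := by
  have hK' : (0 : ℝ) < K := by exact_mod_cast hK
  rw [tt, tt]
  refine (abs_min_sub_min_le_max _ _ _ _).trans ?_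
  rw [sub_self, abs_zero]
  refine max_le (by positivity) ?_
  rw [← sub_div, abs_div, abs_of_pos hK']
  refine div_le_div_of_nonneg_right ?_ hK'.le
  rcases le_or_gt s m with h | h
  · rw [Nat.sub_eq_zero_of_le h]
    have h1 : s + 1 - m ≤ 1 := by omega
    have h2 : ((s + 1 - m : ℕ) : ℝ) ≤ 1 := by exact_mod_cast h1
    have h3 : (0 : ℝ) ≤ ((s + 1 - m : ℕ) : ℝ) := by positivity
    rw [abs_le]
    constructor <;> push_cast at * <;> linarith
  · have h1 : s + 1 - m = (s - m) + 1 := by omega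
    rw [h1]
    push_cast
    rw [abs_le]
    constructor <;> linarith

/-- The coefficients. -/
noncomputable def aa (m K s : ℕ) : ℝ := √(1 - tt m K s)

/-- The coefficients. -/
noncomputable def bb (m K s : ℕ) : ℝ := √(tt m K s)

theorem aa_bb (m K s : ℕ) : aa m K s * aa m K s + bb m K s * bb m K s = 1 := by
  rw [aa, bb, Real.mul_self_sqrt (by linarith [tt_le m K s]), Real.mul_self_sqrt (tt_nonneg m K s)]
  ring

theorem aa_step {m K : ℕ} (hK : 0 < K) (s : ℕ) : |aa m K s - aa m K (s + 1)| ≤ √(1 / K) := by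
  refine (abs_sqrt_sub_sqrt (by linarith [tt_le m K s]) (by linarith [tt_le m K (s + 1)])).trans ?_
  apply Real.sqrt_le_sqrt
  have := tt_step (m := m) hK s
  rw [abs_sub_comm] at this
  rw [show 1 - tt m K s - (1 - tt m K (s + 1)) = tt m K (s + 1) - tt m K s by ring]
  exact this

theorem bb_step {m K : ℕ} (hK : 0 < K) (s : ℕ) : |bb m K s - bb m K (s + 1)| ≤ √(1 / K) := by
  refine (abs_sqrt_sub_sqrt (tt_nonneg m K s) (tt_nonneg m K (s + 1))).trans ?_
  exact Real.sqrt_le_sqrt (tt_step hK s)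

/-- The copy of the first `m + K + 1` floors. -/
noncomputable def gg (x : B) (m K : ℕ) : B :=
  x ^ (m + K + 2) * dg x (m + K + 1) (aa m K) + x * dg x (m + K + 1) (bb m K)

theorem gg_star_mul (hx : star x * x = 1) (m K : ℕ) :
    star (gg x m K) * gg x m K = rr x (m + K + 1) := by
  obtain ⟨L, hL⟩ : ∃ L, L = m + K + 1 := ⟨_, rfl⟩
  have hL2 : m + K + 2 = L + 1 := by omega
  rw [gg, hL2, ← hL, star_add, star_mul, star_mul, dg_star, dg_star]
  have h1 := pow_iso hx (L + 1)
  have h2 : star (x ^ (L + 1)) * x = star (x ^ L) := by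
    rw [pow_succ', star_mul, mul_assoc, hx, mul_one]
  have h3 : star x * x ^ (L + 1) = x ^ L := by
    rw [pow_succ', ← mul_assoc, hx, one_mul]
  have h4 : star (x ^ L) * dg x L (bb m K) = 0 := star_pow_dg hx le_rfl _
  have h5 : dg x L (bb m K) * x ^ L = 0 := by
    have := congrArg star h4
    rwa [star_mul, star_star, dg_star, star_zero] at this
  calc (dg x L (aa m K) * star (x ^ (L + 1)) + dg x L (bb m K) * star x) *
        (x ^ (L + 1) * dg x L (aa m K) + x * dg x L (bb m K))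
      = dg x L (aa m K) * (star (x ^ (L + 1)) * x ^ (L + 1)) * dg x L (aa m K) +
        dg x L (aa m K) * ((star (x ^ (L + 1)) * x) * dg x L (bb m K)) +
        (dg x L (bb m K) * (star x * x ^ (L + 1))) * dg x L (aa m K) +
        dg x L (bb m K) * (star x * x) * dg x L (bb m K) := by noncomm_ring
    _ = dg x L (aa m K) * dg x L (aa m K) + dg x L (bb m K) * dg x L (bb m K) := by
        rw [h1, h2, h3, h4, h5, hx]; noncomm_ring
    _ = rr x L := by
        rw [dg_mul hx, dg_mul hx, dg_add, dg_one hx]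
        intro s _
        exact aa_bb m K s

theorem gg_rr (hx : star x * x = 1) (m K : ℕ) : gg x m K * rr x (m + K + 1) = gg x m K := by
  rw [gg, add_mul, mul_assoc, mul_assoc, dg_rr hx le_rfl, dg_rr hx le_rfl]

theorem gg_rr_m (hx : star x * x = 1) (m K : ℕ) :
    gg x m K * rr x m = x ^ (m + K + 2) * rr x m := by
  rw [gg, add_mul, mul_assoc, mul_assoc, dg_rr hx (by omega), dg_rr hx (by omega),
    dg_one hx (L := m), dg_zero x (L := m), mul_zero, add_zero]
  · intro s hs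
    rw [bb, tt_zero hs.le, Real.sqrt_zero]
  · intro s hs
    rw [aa, tt_zero hs.le, sub_zero, Real.sqrt_one]

theorem gg_shift (hx : star x * x = 1) {m K : ℕ} (hK : 0 < K) :
    ‖x * gg x m K - gg x m K * CC x (m + K)‖ ≤ 2 * √(1 / K) := by
  obtain ⟨N, hN⟩ : ∃ N, N = m + K := ⟨_, rfl⟩
  have hN1 : m + K + 1 = N + 1 := by omega
  have hN2 : m + K + 2 = N + 2 := by omega
  have ha0 : aa m K 0 = 1 := by rw [aa, tt_zero (Nat.zero_le m), sub_zero, Real.sqrt_one]
  have hb0 : bb m K 0 = 0 := by rw [bb, tt_zero (Nat.zero_le m), Real.sqrt_zero]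
  have haN : aa m K N = 0 := by rw [aa, hN, tt_one hK, sub_self, Real.sqrt_zero]
  have hbN : bb m K N = 1 := by rw [bb, hN, tt_one hK, Real.sqrt_one]
  have h1 := x_dg_sub hx N (aa m K)
  have h2 := x_dg_sub hx N (bb m K)
  rw [ha0, haN, Complex.ofReal_zero, zero_smul, add_zero, Complex.ofReal_one, one_smul] at h1
  rw [hb0, hbN, Complex.ofReal_zero, zero_smul, sub_zero, Complex.ofReal_one, one_smul] at h2
  have e : x * gg x m K - gg x m K * CC x (m + K) =
      x ^ (N + 2) * (x * dg x N (fun s => aa m K s - aa m K (s + 1))) +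
        x * (x * dg x N (fun s => bb m K s - bb m K (s + 1))) := by
    rw [gg, hN1, hN2, ← hN]
    have e1 : x * (x ^ (N + 2) * dg x (N + 1) (aa m K) + x * dg x (N + 1) (bb m K)) -
        (x ^ (N + 2) * dg x (N + 1) (aa m K) + x * dg x (N + 1) (bb m K)) * CC x N =
        x ^ (N + 2) * (x * dg x (N + 1) (aa m K) - dg x (N + 1) (aa m K) * CC x N) +
          x * (x * dg x (N + 1) (bb m K) - dg x (N + 1) (bb m K) * CC x N) := by
      have e2 : x * (x ^ (N + 2) * dg x (N + 1) (aa m K)) =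
          x ^ (N + 2) * (x * dg x (N + 1) (aa m K)) := by
        rw [← mul_assoc, ← mul_assoc, ← pow_succ', ← pow_succ]
      rw [mul_add, e2]
      noncomm_ring
    rw [e1, h1, h2]
    have e3 : x ^ (N + 2) * (ee x 0 * star (ee x N)) = x * (ee x (N + 1) * star (ee x N)) := by
      rw [← mul_assoc, ← mul_assoc, pow_ee, x_ee, Nat.zero_add]
    rw [mul_sub, mul_add, e3]
    abel
  rw [e]
  have nx := norm_x_le hx
  have nxp : ∀ n : ℕ, ‖x ^ n‖ ≤ 1 := fun n =>
    norm_le_one_of_star_mul (star_one B) (mul_one 1) (pow_iso hx n)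
  have n1 : ‖dg x N (fun s => aa m K s - aa m K (s + 1))‖ ≤ √(1 / K) :=
    norm_dg hx (Real.sqrt_nonneg _) fun s _ => aa_step hK s
  have n2 : ‖dg x N (fun s => bb m K s - bb m K (s + 1))‖ ≤ √(1 / K) :=
    norm_dg hx (Real.sqrt_nonneg _) fun s _ => bb_step hK s
  have hmul : ∀ {a c : B} {M : ℝ}, ‖a‖ ≤ 1 → ‖c‖ ≤ M → ‖a * c‖ ≤ M := by
    intro a c M h3 h4
    calc ‖a * c‖ ≤ ‖a‖ * ‖c‖ := norm_mul_le _ _
      _ ≤ 1 * M := mul_le_mul h3 h4 (norm_nonneg _) zero_le_one
      _ = M := one_mul M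
  refine (norm_add_le _ _).trans ?_
  have n3 := hmul (nxp (N + 2)) (hmul nx n1)
  have n4 := hmul nx (hmul nx n2)
  linarith

theorem rr_gg (hx : star x * x = 1) {m K N : ℕ} (hN : 2 * (m + K + 1) + 1 ≤ N) :
    rr x N * gg x m K = gg x m K := by
  obtain ⟨L, hL⟩ : ∃ L, L = m + K + 1 := ⟨_, rfl⟩
  have hL2 : m + K + 2 = L + 1 := by omega
  have h0 : ∀ n k : ℕ, EE x (n + k) * x ^ k = x ^ k * EE x n := by
    intro n k
    rw [EE, EE, add_comm n k, pow_add, star_mul]
    calc x ^ k * x ^ n * (star (x ^ n) * star (x ^ k)) * x ^ k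
        = x ^ k * (x ^ n * star (x ^ n)) * (star (x ^ k) * x ^ k) := by noncomm_ring
      _ = x ^ k * (x ^ n * star (x ^ n)) := by rw [pow_iso hx, mul_one]
  have h1 : EE x N * gg x m K = 0 := by
    obtain ⟨k, hk⟩ := Nat.exists_eq_add_of_le hN
    have e1 : N = (L + k) + (L + 1) := by omega
    have e2 : N = (2 * L + k) + 1 := by omega
    have f1 : EE x N * x ^ (L + 1) = x ^ (L + 1) * EE x (L + k) := by rw [e1]; exact h0 _ _
    have f2 : EE x N * x = x * EE x (2 * L + k) := by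
      have := h0 (2 * L + k) 1
      rw [pow_one] at this
      rw [e2]; exact this
    have f3 : ∀ n, L ≤ n → ∀ a : ℕ → ℝ, EE x n * dg x L a = 0 := by
      intro n hn a
      rw [EE, mul_assoc, star_pow_dg hx hn, mul_zero]
    rw [gg, hL2, ← hL, mul_add, ← mul_assoc, ← mul_assoc, f1, f2, mul_assoc, mul_assoc,
      f3 _ (by omega), f3 _ (by omega), mul_zero, mul_zero, add_zero]
  rw [rr, sub_mul, one_mul, h1, sub_zero]

theorem pp_gg (hx : star x * x = 1) (m K : ℕ) : pp x * gg x m K = 0 := by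
  rw [gg, pow_succ', mul_add, ← mul_assoc, ← mul_assoc, ← mul_assoc, pp_x hx]
  simp

end Pool.Agent.LPS
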