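import Pool.Agent.LPS.Fr

/-!
# Hh: approximate eigenvectors

`h = l^{-1/2} ∑_{k < l} x^k c (X*)^k`, with `c` moving the floors `s < L` to the floors
`2 L + 1 + (i L + s) l`.
-/

namespace Pool.Agent.LPS

variable {B : Type} [CStarAlgebra B] {x : B}

/-- The first floor of the segment `(i, s)`. -/
def be (L l i s : ℕ) : ℕ := 2 * L + 1 + (i * L + s) * l

theorem be_inj {L l i j s t k k' : ℕ} (hk : k < l) (hk' : k' < l) (hs : s < L) (ht : t < L)
    (h : be L l i s + k = be L l j t + k') : i = j ∧ s = t ∧ k = k' := by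
  have hl : 0 < l := by omega
  have hL : 0 < L := by omega
  have h1 : (i * L + s) * l + k = (j * L + t) * l + k' := by
    unfold be at h; omega
  have h2 : k = k' := by
    have := congrArg (· % l) h1
    simp only [Nat.mul_add_mod_self_right, Nat.mod_eq_of_lt hk, Nat.mod_eq_of_lt hk'] at this
    exact this
  have h3 : i * L + s = j * L + t := by
    have h4 : (i * L + s) * l = (j * L + t) * l := by omega
    exact Nat.eq_of_mul_eq_mul_right hl h4
  have h5 : s = t := by
    have := congrArg (· % L) h3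
    simp only [Nat.mul_add_mod_self_right, Nat.mod_eq_of_lt hs, Nat.mod_eq_of_lt ht] at this
    exact this
  have h6 : i = j := by
    have h7 : i * L = j * L := by omega
    exact Nat.eq_of_mul_eq_mul_right hL h7
  exact ⟨h6, h5, h2⟩

/-- The approximate eigenvector. -/
noncomputable def hk (x : B) (L l i : ℕ) (X : B) : B :=
  ((1 / √(l : ℝ) : ℝ) : ℂ) • ∑ k ∈ Finset.range l, x ^ k * fr x L (be L l i) * star X ^ k

theorem hk_star_mul_ne (hx : star x * x = 1) {L l i j : ℕ} (hij : i ≠ j) (X Y : B) :
    star (hk x L l i X) * hk x L l j Y = 0 := by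
  rw [hk, hk, star_smul, smul_mul_smul_comm, star_sum, Finset.sum_mul_sum]
  rw [Finset.sum_eq_zero, smul_zero]
  intro k hk
  refine Finset.sum_eq_zero fun k' hk' => ?_
  have h1 : star (x ^ k * fr x L (be L l i)) * (x ^ k' * fr x L (be L l j)) = 0 := by
    rw [pow_fr, pow_fr]
    refine fr_star_mul_zero hx fun s hs t ht h => hij ?_
    exact (be_inj (Finset.mem_range.1 hk) (Finset.mem_range.1 hk') hs ht h).1
  rw [star_mul]
  calc star (star X ^ k) * star (x ^ k * fr x L (be L l i)) *
        (x ^ k' * fr x L (be L l j) * star Y ^ k')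
      = star (star X ^ k) * (star (x ^ k * fr x L (be L l i)) *
          (x ^ k' * fr x L (be L l j))) * star Y ^ k' := by simp only [mul_assoc]
    _ = 0 := by rw [h1, mul_zero, zero_mul]

theorem pow_mul_rr {L : ℕ} {X : B} (hXr : X * rr x L = X) (hXu' : X * star X = rr x L) (k : ℕ) :
    X ^ k * rr x L * star (X ^ k) = rr x L := by
  induction k with
  | zero => simp
  | succ n ih =>
    rw [pow_succ, star_mul]
    calc X ^ n * X * rr x L * (star X * star (X ^ n))
        = X ^ n * (X * rr x L * star X) * star (X ^ n) := by simp only [mul_assoc]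
      _ = rr x L := by rw [hXr, hXu', ih]

theorem hk_star_mul_self (hx : star x * x = 1) {L l i : ℕ} (hl : 0 < l) {X : B}
    (hXr : X * rr x L = X) (hXu' : X * star X = rr x L) :
    star (hk x L l i X) * hk x L l i X = rr x L := by
  rw [hk, star_smul, smul_mul_smul_comm, star_sum, Finset.sum_mul_sum]
  have h0 : ∀ k ∈ Finset.range l, ∑ k' ∈ Finset.range l,
      star (x ^ k * fr x L (be L l i) * star X ^ k) * (x ^ k' * fr x L (be L l i) * star X ^ k') =
      rr x L := by
    intro k hk
    rw [Finset.sum_eq_single_of_mem k hk]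
    · have h1 : star (x ^ k * fr x L (be L l i)) * (x ^ k * fr x L (be L l i)) = rr x L := by
        rw [pow_fr]
        refine fr_star_mul_self hx fun s hs t ht h => ?_
        exact (be_inj (Finset.mem_range.1 hk) (Finset.mem_range.1 hk) hs ht h).2.1
      rw [star_mul]
      calc star (star X ^ k) * star (x ^ k * fr x L (be L l i)) *
            (x ^ k * fr x L (be L l i) * star X ^ k)
          = star (star X ^ k) * (star (x ^ k * fr x L (be L l i)) *
              (x ^ k * fr x L (be L l i))) * star X ^ k := by simp only [mul_assoc]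
        _ = X ^ k * rr x L * star (X ^ k) := by
            rw [h1]
            simp
        _ = rr x L := pow_mul_rr hXr hXu' k
    · intro k' hk' hne
      have h1 : star (x ^ k * fr x L (be L l i)) * (x ^ k' * fr x L (be L l i)) = 0 := by
        rw [pow_fr, pow_fr]
        refine fr_star_mul_zero hx fun s hs t ht h => hne ?_
        exact (be_inj (Finset.mem_range.1 hk) (Finset.mem_range.1 hk') hs ht h).2.2.symm
      rw [star_mul]
      calc star (star X ^ k) * star (x ^ k * fr x L (be L l i)) *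
            (x ^ k' * fr x L (be L l i) * star X ^ k')
          = star (star X ^ k) * (star (x ^ k * fr x L (be L l i)) *
              (x ^ k' * fr x L (be L l i))) * star X ^ k' := by simp only [mul_assoc]
        _ = 0 := by rw [h1, mul_zero, zero_mul]
  rw [Finset.sum_congr rfl h0, Finset.sum_const, Finset.card_range, ← Nat.cast_smul_eq_nsmul ℂ,
    smul_smul]
  have h2 : star (((1 / √(l : ℝ) : ℝ) : ℂ)) * ((1 / √(l : ℝ) : ℝ) : ℂ) * (l : ℂ) = 1 := by
    have h3 : (1 / √(l : ℝ)) * (1 / √(l : ℝ)) * (l : ℝ) = 1 := by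
      have h4 : √(l : ℝ) * √(l : ℝ) = l := Real.mul_self_sqrt (by positivity)
      have h5 : √(l : ℝ) ≠ 0 := by positivity
      field_simp
      rw [sq, h4]
    have h6 : star (((1 / √(l : ℝ) : ℝ) : ℂ)) = ((1 / √(l : ℝ) : ℝ) : ℂ) :=
      Complex.conj_ofReal _
    rw [h6]
    exact_mod_cast h3
  rw [h2, one_smul]

theorem hk_rr (hx : star x * x = 1) {L l i : ℕ} {X : B} (hXr : rr x L * X = X) :
    hk x L l i X * rr x L = hk x L l i X := by
  have h1 : star X * rr x L = star X := by
    have := congrArg star hXr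
    rwa [star_mul, rr_star] at this
  rw [hk, smul_mul_assoc, Finset.sum_mul]
  congr 1
  refine Finset.sum_congr rfl fun k _ => ?_
  cases k with
  | zero => rw [pow_zero, pow_zero, mul_one, one_mul, fr_rr hx]
  | succ n => simp only [pow_succ (star X), mul_assoc, h1]

theorem norm_pow_le {a : B} (ha : ‖a‖ ≤ 1) (k : ℕ) : ‖a ^ k‖ ≤ 1 := by
  induction k with
  | zero => rw [pow_zero]; exact norm_le_one_of_proj (star_one B) (mul_one 1)
  | succ n ih =>
    rw [pow_succ]
    calc ‖a ^ n * a‖ ≤ ‖a ^ n‖ * ‖a‖ := norm_mul_le _ _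
      _ ≤ 1 * 1 := mul_le_mul ih ha (norm_nonneg _) zero_le_one
      _ = 1 := one_mul 1

theorem hk_shift (hx : star x * x = 1) {L l i : ℕ} (hl : 0 < l) {X : B} (hXr : rr x L * X = X)
    (hXu : star X * X = rr x L) :
    ‖x * hk x L l i X - hk x L l i X * X‖ ≤ 2 / √(l : ℝ) := by
  have h1 : star X * rr x L = star X := by
    have := congrArg star hXr
    rwa [star_mul, rr_star] at this
  have hn : ‖X‖ ≤ 1 := norm_le_one_of_star_mul (rr_star x L) (rr_mul hx L) hXu
  obtain ⟨F, hF⟩ : ∃ F : ℕ → B, F = fun k => x ^ k * fr x L (be L l i) * star X ^ k * X := ⟨_, rfl⟩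
  have hFs : ∀ k, F (k + 1) = x * (x ^ k * fr x L (be L l i) * star X ^ k) := by
    intro k
    rw [hF]
    change x ^ (k + 1) * fr x L (be L l i) * star X ^ (k + 1) * X = _
    have e1 : fr x L (be L l i) * star X ^ k * rr x L = fr x L (be L l i) * star X ^ k := by
      cases k with
      | zero => rw [pow_zero, mul_one, fr_rr hx]
      | succ n => simp only [pow_succ (star X), mul_assoc, h1]
    calc x ^ (k + 1) * fr x L (be L l i) * star X ^ (k + 1) * X
        = x * x ^ k * (fr x L (be L l i) * star X ^ k * (star X * X)) := by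
          rw [pow_succ' x, pow_succ (star X)]; simp only [mul_assoc]
      _ = x * x ^ k * (fr x L (be L l i) * star X ^ k) := by rw [hXu, e1]
      _ = _ := by simp only [mul_assoc]
  have e : x * hk x L l i X - hk x L l i X * X = ((1 / √(l : ℝ) : ℝ) : ℂ) • (F l - F 0) := by
    rw [hk, mul_smul_comm, smul_mul_assoc, ← smul_sub, Finset.mul_sum, Finset.sum_mul,
      ← Finset.sum_sub_distrib, ← Finset.sum_range_sub]
    congr 1
    refine Finset.sum_congr rfl fun k _ => ?_
    rw [hFs, hF]
  have hFn : ∀ k, ‖F k‖ ≤ 1 := by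
    intro k
    rw [hF]
    change ‖x ^ k * fr x L (be L l i) * star X ^ k * X‖ ≤ 1
    have n1 : ‖fr x L (be L l i)‖ ≤ 1 := norm_fr hx fun s hs t ht h =>
      (be_inj (k := 0) (k' := 0) hl hl hs ht (by simpa using h)).2.1
    have n2 : ‖star X ^ k‖ ≤ 1 := norm_pow_le (by rw [norm_star]; exact hn) k
    have n3 := norm_pow_le (norm_x_le hx) k
    calc ‖x ^ k * fr x L (be L l i) * star X ^ k * X‖
        ≤ ‖x ^ k‖ * ‖fr x L (be L l i)‖ * ‖star X ^ k‖ * ‖X‖ := by
          refine (norm_mul_le _ _).trans (mul_le_mul_of_nonneg_right ?_ (norm_nonneg _))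
          refine (norm_mul_le _ _).trans (mul_le_mul_of_nonneg_right ?_ (norm_nonneg _))
          exact norm_mul_le _ _
      _ ≤ 1 * 1 * 1 * 1 := by gcongr
      _ = 1 := by norm_num
  rw [e, norm_smul, Complex.norm_real, Real.norm_eq_abs, abs_of_nonneg (by positivity)]
  have n4 : ‖F l - F 0‖ ≤ 2 := (norm_sub_le _ _).trans (by linarith [hFn l, hFn 0])
  calc 1 / √(l : ℝ) * ‖F l - F 0‖ ≤ 1 / √(l : ℝ) * 2 :=
        mul_le_mul_of_nonneg_left n4 (by positivity)
    _ = 2 / √(l : ℝ) := by ring

theorem left_hk {L l i : ℕ} {X q : B}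
    (h : ∀ k < l, q * (x ^ k * fr x L (be L l i)) = x ^ k * fr x L (be L l i)) :
    q * hk x L l i X = hk x L l i X := by
  rw [hk, mul_smul_comm, Finset.mul_sum]
  congr 1
  refine Finset.sum_congr rfl fun k hk => ?_
  rw [← mul_assoc, h k (Finset.mem_range.1 hk)]

theorem left_hk_zero {L l i : ℕ} {X q : B}
    (h : ∀ k < l, q * (x ^ k * fr x L (be L l i)) = 0) : q * hk x L l i X = 0 := by
  rw [hk, mul_smul_comm, Finset.mul_sum, Finset.sum_eq_zero, smul_zero]
  intro k hk
  rw [← mul_assoc, h k (Finset.mem_range.1 hk), zero_mul]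

theorem rr_hk (hx : star x * x = 1) {L l i N : ℕ} (X : B) (hN : 2 * L + 1 + (i + 1) * L * l ≤ N) :
    rr x N * hk x L l i X = hk x L l i X := by
  refine left_hk fun k hk => ?_
  rw [pow_fr]
  refine rr_fr hx fun s hs => ?_
  unfold be
  have h1 : (i * L + s + 1) * l ≤ (i + 1) * L * l := by
    refine Nat.mul_le_mul_right l ?_
    rw [Nat.add_mul, Nat.one_mul]; omega
  have h2 : (i * L + s + 1) * l = (i * L + s) * l + l := by ring
  omega

theorem rr_hk_zero (hx : star x * x = 1) {L l i N : ℕ} (X : B) (hN : N ≤ 2 * L + 1) :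
    rr x N * hk x L l i X = 0 := by
  refine left_hk_zero fun k _ => ?_
  rw [pow_fr]
  refine rr_fr_zero hx fun s _ => ?_
  unfold be
  omega

theorem pp_hk (hx : star x * x = 1) {L l i : ℕ} (X : B) : pp x * hk x L l i X = 0 := by
  refine left_hk_zero fun k _ => ?_
  rw [pow_fr]
  refine pp_fr hx fun s _ => ?_
  unfold be
  omega

end Pool.Agent.LPS
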