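import Pool.Agent.LPS.Defs

/-!
# Iso: the algebra of one isometry

`x` an isometry, `pp x = 1 - x x*`, `ee x s = x^s (1 - x x*)`, `EE x n = x^n (x^n)*`.
-/

namespace Pool.Agent.LPS

variable {B : Type} [CStarAlgebra B]

/-- The defect projection. -/
noncomputable def pp (x : B) : B := 1 - x * star x

/-- The `s`-th floor. -/
noncomputable def ee (x : B) (s : ℕ) : B := x ^ s * pp x

/-- The range projection of `x ^ n`. -/
noncomputable def EE (x : B) (n : ℕ) : B := x ^ n * star (x ^ n)

variable {x : B}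

theorem pp_star (x : B) : star (pp x) = pp x := by
  simp [pp]

theorem pp_x (hx : star x * x = 1) : pp x * x = 0 := by
  rw [pp, sub_mul, one_mul, mul_assoc, hx, mul_one, sub_self]

theorem star_x_pp (hx : star x * x = 1) : star x * pp x = 0 := by
  have := congrArg star (pp_x hx)
  rwa [star_mul, pp_star, star_zero] at this

theorem pp_pp (hx : star x * x = 1) : pp x * pp x = pp x := by
  have h : pp x * pp x = (1 - x * star x) * pp x := rfl
  rw [h, sub_mul, one_mul, mul_assoc, star_x_pp hx, mul_zero, sub_zero]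

theorem pow_iso (hx : star x * x = 1) (n : ℕ) : star (x ^ n) * x ^ n = 1 := by
  induction n with
  | zero => simp
  | succ n ih =>
    rw [pow_succ', star_mul]
    calc star (x ^ n) * star x * (x * x ^ n) = star (x ^ n) * (star x * x) * x ^ n := by
          simp only [mul_assoc]
      _ = 1 := by rw [hx, mul_one, ih]

theorem x_ee (x : B) (s : ℕ) : x * ee x s = ee x (s + 1) := by
  rw [ee, ee, pow_succ', mul_assoc]

theorem pow_ee (x : B) (n s : ℕ) : x ^ n * ee x s = ee x (s + n) := by
  rw [ee, ee, ← mul_assoc, ← pow_add, add_comm]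

theorem ee_pp (hx : star x * x = 1) (s : ℕ) : ee x s * pp x = ee x s := by
  rw [ee, mul_assoc, pp_pp hx]

theorem star_x_ee_succ (hx : star x * x = 1) (s : ℕ) : star x * ee x (s + 1) = ee x s := by
  rw [← x_ee, ← mul_assoc, hx, one_mul]

theorem star_x_ee_zero (hx : star x * x = 1) : star x * ee x 0 = 0 := by
  rw [ee, pow_zero, one_mul, star_x_pp hx]

theorem star_pow_ee_lt (hx : star x * x = 1) {n s : ℕ} (h : s < n) :
    star (x ^ n) * ee x s = 0 := by
  have e : star (x ^ n) = star (x ^ (n - s - 1)) * star x * star (x ^ s) := by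
    rw [← star_mul, ← star_mul, ← pow_succ', ← pow_add]
    have : s + (n - s - 1 + 1) = n := by omega
    rw [this]
  have e2 : ee x s = x ^ s * pp x := rfl
  rw [e, e2, mul_assoc, ← mul_assoc (star (x ^ s)), pow_iso hx, one_mul, mul_assoc,
    star_x_pp hx, mul_zero]

theorem star_pow_ee_add (hx : star x * x = 1) (n s : ℕ) :
    star (x ^ n) * ee x (s + n) = ee x s := by
  rw [← pow_ee, ← mul_assoc, pow_iso hx, one_mul]

theorem ee_star_ee (hx : star x * x = 1) (s t : ℕ) :
    star (ee x s) * ee x t = if s = t then pp x else 0 := by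
  split_ifs with h
  · subst h
    rw [ee, star_mul, pp_star, mul_assoc, ← mul_assoc (star (x ^ s)), pow_iso hx, one_mul,
      pp_pp hx]
  · rcases lt_or_gt_of_ne h with h | h
    · have h1 := star_pow_ee_lt hx h
      have h2 := congrArg star h1
      rw [star_mul, star_star, star_zero] at h2
      rw [show ee x t = x ^ t * pp x from rfl, ← mul_assoc, h2, zero_mul]
    · rw [show star (ee x s) = pp x * star (x ^ s) by rw [ee, star_mul, pp_star], mul_assoc,
        star_pow_ee_lt hx h, mul_zero]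

theorem EE_star (x : B) (n : ℕ) : star (EE x n) = EE x n := by
  simp [EE]

theorem EE_ee_lt (hx : star x * x = 1) {n s : ℕ} (h : s < n) : EE x n * ee x s = 0 := by
  rw [EE, mul_assoc, star_pow_ee_lt hx h, mul_zero]

theorem EE_ee_le (hx : star x * x = 1) {n s : ℕ} (h : n ≤ s) : EE x n * ee x s = ee x s := by
  obtain ⟨k, rfl⟩ := Nat.exists_eq_add_of_le' h
  rw [EE, mul_assoc, star_pow_ee_add hx, pow_ee]

theorem EE_mul (hx : star x * x = 1) {n k : ℕ} (h : n ≤ k) : EE x n * EE x k = EE x k := by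
  obtain ⟨j, rfl⟩ := Nat.exists_eq_add_of_le h
  rw [EE, EE, pow_add, mul_assoc, ← mul_assoc (star (x ^ n)), ← mul_assoc (star (x ^ n)),
    pow_iso hx, one_mul, ← mul_assoc]

theorem sum_ee (hx : star x * x = 1) (L : ℕ) :
    ∑ s ∈ Finset.range L, ee x s * star (ee x s) = 1 - EE x L := by
  induction L with
  | zero => simp [EE]
  | succ n ih =>
    rw [Finset.sum_range_succ, ih]
    have h1 : ee x n * star (ee x n) = x ^ n * pp x * star (x ^ n) := by
      rw [ee, star_mul, pp_star, mul_assoc, ← mul_assoc (pp x), pp_pp hx, ← mul_assoc]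
    rw [h1, pp, EE, EE, pow_succ, star_mul]
    noncomm_ring

/-- The projection on the first `L` floors. -/
noncomputable def rr (x : B) (L : ℕ) : B := 1 - EE x L

theorem rr_eq (hx : star x * x = 1) (L : ℕ) :
    rr x L = ∑ s ∈ Finset.range L, ee x s * star (ee x s) := (sum_ee hx L).symm

theorem rr_star (x : B) (L : ℕ) : star (rr x L) = rr x L := by
  rw [rr, star_sub, star_one, EE_star]

theorem rr_ee_lt (hx : star x * x = 1) {L s : ℕ} (h : s < L) : rr x L * ee x s = ee x s := by
  rw [rr, sub_mul, one_mul, EE_ee_lt hx h, sub_zero]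

theorem rr_ee_le (hx : star x * x = 1) {L s : ℕ} (h : L ≤ s) : rr x L * ee x s = 0 := by
  rw [rr, sub_mul, one_mul, EE_ee_le hx h, sub_self]

theorem rr_mul (hx : star x * x = 1) (L : ℕ) : rr x L * rr x L = rr x L := by
  rw [rr, sub_mul, one_mul, mul_sub, mul_one, EE_mul hx le_rfl, sub_self, sub_zero]

theorem norm_le_one_of_proj {q : B} (hq : star q = q) (hqq : q * q = q) : ‖q‖ ≤ 1 := by
  have h : ‖q‖ * ‖q‖ = ‖q‖ := by
    rw [← CStarRing.norm_star_mul_self, hq, hqq]
  nlinarith [norm_nonneg q, sq_nonneg (‖q‖ - 1)]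

theorem norm_le_one_of_star_mul {a r : B} (hr : star r = r) (hrr : r * r = r)
    (ha : star a * a = r) : ‖a‖ ≤ 1 := by
  have h1 : ‖a‖ * ‖a‖ = ‖r‖ := by rw [← CStarRing.norm_star_mul_self, ha]
  have h2 := norm_le_one_of_proj hr hrr
  nlinarith [norm_nonneg a]

theorem norm_x_le (hx : star x * x = 1) : ‖x‖ ≤ 1 :=
  norm_le_one_of_star_mul (star_one B) (mul_one 1) hx

/-- The norm of `∑ t_i x_i t_i*` for `t_i` with orthogonal ranges. -/
theorem rr_norm (hx : star x * x = 1) (L : ℕ) : ‖rr x L‖ ≤ 1 :=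
  norm_le_one_of_proj (rr_star x L) (rr_mul hx L)

end Pool.Agent.LPS
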