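import Pool.Agent.LPS.ChL
import Pool.Agent.LPS.Core
import Pool.Agent.LPS.Gg
import Pool.Agent.LPS.Hh

/-!
# Loop: the loop equation

`x` isometry, `w` unitary with `w E_m = E_m`, joined to `1` by such unitaries. Then there is a
unitary `z ~ 1` with `z ≈ w (x z x* + 1 - x x*)`.

PROOF. `w` is cohomologous to `ω = th^M(w) = 1 + x^M (w - 1) x*^M` (`um`). For a chain
`1 = ζ 0, …, ζ (n+1) = w` put `X_i = ζ_i C`, `C` = cyclic shift of the first `L` floors;
`g = gg x m K` satisfies `x g ≈ g C` and `ω = 1 + g (w - 1) g*`; `h_j = hk x L l j X_{j+1}` satisfies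
`x h_j ≈ h_j X_{j+1}`. The cyclic permutation of the copies `h_0, …, h_{n-1}, g` is the solution
(`Frame.core`).
-/

namespace Pool.Agent.LPS

variable {B : Type} [CStarAlgebra B] {x : B}

theorem EE_mul_unitary {u : B} (hu : star u * u = 1) {e : B} (he : star e = e) (h : u * e = e) :
    e * u = e := by
  have h1 : star u * e = e := by
    calc star u * e = star u * (u * e) := by rw [h]
      _ = e := by rw [← mul_assoc, hu, one_mul]
  have := congrArg star h1
  rwa [star_mul, star_star, he] at this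

/-- Facts on `X = u C`. -/
theorem X_facts (hx : star x * x = 1) {m N : ℕ} (hm : m ≤ N + 1) {u : B} (h1 : star u * u = 1)
    (h2 : u * star u = 1) (h3 : u * EE x m = EE x m) :
    rr x (N + 1) * (u * CC x N) = u * CC x N ∧ (u * CC x N) * rr x (N + 1) = u * CC x N ∧
      star (u * CC x N) * (u * CC x N) = rr x (N + 1) ∧
      (u * CC x N) * star (u * CC x N) = rr x (N + 1) := by
  have h4 : u * EE x (N + 1) = EE x (N + 1) := by
    rw [← EE_mul hx hm, ← mul_assoc, h3]
  have h5 := EE_mul_unitary h1 (EE_star x _) h4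
  have h6 : rr x (N + 1) * u = u * rr x (N + 1) := by
    rw [rr, sub_mul, mul_sub, one_mul, mul_one, h4, h5]
  refine ⟨?_, ?_, ?_, ?_⟩
  · rw [← mul_assoc, h6, mul_assoc, rr_CC hx]
  · rw [mul_assoc, CC, fr_rr hx]
  · rw [star_mul]
    calc star (CC x N) * star u * (u * CC x N) = star (CC x N) * (star u * u) * CC x N := by
          simp only [mul_assoc]
      _ = _ := by rw [h1, mul_one, CC_star_mul hx]
  · rw [star_mul]
    calc u * CC x N * (star (CC x N) * star u) = u * (CC x N * star (CC x N)) * star u := by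
          simp only [mul_assoc]
      _ = _ := by rw [CC_mul_star hx, ← h6, mul_assoc, h2, mul_one]

/-- The shifted cocycle in terms of `g`. -/
theorem omega_eq (hx : star x * x = 1) {m K : ℕ} {w : B} (h1 : star w * w = 1)
    (h3 : w * EE x m = EE x m) :
    gg x m K * (w - 1) * star (gg x m K) =
      x ^ (m + K + 2) * (w - 1) * star (x ^ (m + K + 2)) := by
  have h5 := EE_mul_unitary h1 (EE_star x _) h3
  have h6 : rr x m * (w - 1) = w - 1 := by
    rw [rr, sub_mul, one_mul, mul_sub, mul_one, h5, sub_self, sub_zero]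
  have h7 : (w - 1) * rr x m = w - 1 := by
    rw [rr, mul_sub, mul_one, sub_mul, one_mul, h3, sub_self, sub_zero]
  have h8 := gg_rr_m hx m K
  have h9 : rr x m * star (gg x m K) = rr x m * star (x ^ (m + K + 2)) := by
    have := congrArg star h8
    rwa [star_mul, star_mul, rr_star] at this
  calc gg x m K * (w - 1) * star (gg x m K)
      = (gg x m K * rr x m) * (w - 1) * (rr x m * star (gg x m K)) := by
        rw [mul_assoc (gg x m K) (rr x m), h6, ← mul_assoc, mul_assoc (gg x m K) (w - 1) (rr x m),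
          h7]
    _ = x ^ (m + K + 2) * (rr x m * ((w - 1) * rr x m)) * star (x ^ (m + K + 2)) := by
        rw [h8, h9]; simp only [mul_assoc]
    _ = _ := by rw [h7, h6]

theorem sigma_val (n : ℕ) (i : Fin (n + 1)) :
    ((((Equiv.subLeft (1 : Fin (n + 1))) * (Equiv.neg (Fin (n + 1)))) i : Fin (n + 1)) : ℕ) =
      if i = Fin.last n then 0 else (i : ℕ) + 1 := by
  have h : ((Equiv.subLeft (1 : Fin (n + 1))) * (Equiv.neg (Fin (n + 1)))) i = i + 1 := by
    simp [Equiv.Perm.mul_apply, add_comm]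
  rw [h]
  exact Fin.val_add_one i

theorem ChF_zz {ι : Type} [Fintype ι] [DecidableEq ι] {r f : B} {h : ι → B} (hF : Frame r h)
    (hf : ∀ i, star (h i) * f = 0) {ρ : Equiv.Perm ι} (hρ : ρ * ρ = 1) : ChF f (zz h ρ) := by
  refine ChF_of_invol ?_ ?_ ?_
  · rw [zz_star, inv_eq_of_mul_eq_one_left hρ]
  · rw [hF.zz_mul, hρ, zz_one]
  · have h1 : QQ h * f = 0 := by
      rw [QQ, Finset.sum_mul]
      exact Finset.sum_eq_zero fun i _ => by rw [mul_assoc, hf, mul_zero]
    have h2 : UU h ρ * f = 0 := by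
      rw [UU, Finset.sum_mul]
      exact Finset.sum_eq_zero fun i _ => by rw [mul_assoc, hf, mul_zero]
    rw [zz, add_mul, sub_mul, one_mul, h1, h2, sub_zero, add_zero]

theorem zz_fix {ι : Type} [Fintype ι] [DecidableEq ι] {f : B} {h : ι → B}
    (hf : ∀ i, star (h i) * f = 0) (σ : Equiv.Perm ι) : zz h σ * f = f := by
  have h1 : QQ h * f = 0 := by
    rw [QQ, Finset.sum_mul]
    exact Finset.sum_eq_zero fun i _ => by rw [mul_assoc, hf, mul_zero]
  have h2 : UU h σ * f = 0 := by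
    rw [UU, Finset.sum_mul]
    exact Finset.sum_eq_zero fun i _ => by rw [mul_assoc, hf, mul_zero]
  rw [zz, add_mul, sub_mul, one_mul, h1, h2, sub_zero, add_zero]

/-- The solution for the shifted cocycle. -/
theorem loop_shift (hx : star x * x = 1) {m n K l : ℕ} (hK : 0 < K) (hl : 0 < l) {ζ : ℕ → B}
    (h0 : ζ 0 = 1)
    (hζ : ∀ i, star (ζ i) * ζ i = 1 ∧ ζ i * star (ζ i) = 1 ∧ ζ i * EE x m = EE x m) {η : ℝ}
    (hη : 0 ≤ η) (hs : ∀ i ≤ n, ‖ζ (i + 1) - ζ i‖ ≤ η) :
    ∃ (N : ℕ) (z : B), ChF (EE x N) z ∧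
      ‖(1 + x ^ (m + K + 2) * (ζ (n + 1) - 1) * star (x ^ (m + K + 2))) * th x z - z‖ ≤
        η + 8 * (n + 1) / √(l : ℝ) + 12 * √(1 / (K : ℝ)) := by
  obtain ⟨L, hL⟩ : ∃ L, L = m + K + 1 := ⟨_, rfl⟩
  obtain ⟨w, hw⟩ : ∃ w, w = ζ (n + 1) := ⟨_, rfl⟩
  have hw' := hζ (n + 1)
  rw [← hw] at hw'
  obtain ⟨X, hX⟩ : ∃ X : Fin (n + 1) → B, X = fun j => if j = Fin.last n then ζ 0 * CC x (m + K)
    else ζ (j + 1) * CC x (m + K) := ⟨_, rfl⟩
  have hXf : ∀ j, rr x L * X j = X j ∧ X j * rr x L = X j ∧ star (X j) * X j = rr x L ∧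
      X j * star (X j) = rr x L := by
    intro j
    rw [hX, hL]
    by_cases hj : j = Fin.last n
    · simp only [hj, if_true]
      exact X_facts hx (by omega) (hζ 0).1 (hζ 0).2.1 (hζ 0).2.2
    · simp only [hj, if_false]
      exact X_facts hx (by omega) (hζ _).1 (hζ _).2.1 (hζ _).2.2
  obtain ⟨h, hh⟩ : ∃ h : Fin (n + 1) → B, h = fun j => if j = Fin.last n then gg x m K
    else hk x L l j (X j) := ⟨_, rfl⟩
  have hlast : h (Fin.last n) = gg x m K := by rw [hh]; simp
  have hne : ∀ j, j ≠ Fin.last n → h j = hk x L l j (X j) := by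
    intro j hj
    rw [hh]; simp [hj]
  have hcross : ∀ j : Fin (n + 1), star (gg x m K) * hk x L l j (X j) = 0 := by
    intro j
    have e1 : rr x (2 * L + 1) * gg x m K = gg x m K := rr_gg hx (by omega)
    have e2 := congrArg star e1
    rw [star_mul, rr_star] at e2
    rw [← e2, mul_assoc, rr_hk_zero hx _ le_rfl, mul_zero]
  have hF : Frame (rr x L) h := by
    refine ⟨rr_star x L, rr_mul hx L, fun i j => ?_, fun i => ?_⟩
    · by_cases hi : i = Fin.last n
      · by_cases hj : j = Fin.last n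
        · rw [hi, hj, hlast, if_pos rfl, gg_star_mul hx, hL]
        · rw [hi, hlast, hne j hj, if_neg (fun h => hj h.symm), hcross]
      · by_cases hj : j = Fin.last n
        · rw [hj, hlast, hne i hi, if_neg hi]
          have := congrArg star (hcross i)
          rwa [star_mul, star_star, star_zero] at this
        · rw [hne i hi, hne j hj]
          split_ifs with hij
          · rw [← hij]
            exact hk_star_mul_self hx hl (hXf i).2.1 (hXf i).2.2.2
          · exact hk_star_mul_ne hx (fun h => hij (Fin.ext h)) _ _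
    · by_cases hi : i = Fin.last n
      · rw [hi, hlast, hL, gg_rr hx]
      · rw [hne i hi, hk_rr hx (hXf i).1]
  obtain ⟨y, hy⟩ : ∃ y : Fin (n + 1) → B, y = fun j => x * h j - h j * X j := ⟨_, rfl⟩
  have hylast : ‖y (Fin.last n)‖ ≤ 2 * √(1 / (K : ℝ)) := by
    rw [hy]
    simp only [hlast]
    have e1 : X (Fin.last n) = CC x (m + K) := by rw [hX]; simp [h0]
    rw [e1]
    exact gg_shift hx hK
  have hyne : ∀ j, j ≠ Fin.last n → ‖y j‖ ≤ 2 / √(l : ℝ) := by
    intro j hj
    rw [hy]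
    simp only [hne j hj]
    exact hk_shift hx hl (hXf j).1 (hXf j).2.2.1
  have hsum : ∑ j, ‖y j‖ ≤ (n + 1) * (2 / √(l : ℝ)) + 2 * √(1 / (K : ℝ)) := by
    calc ∑ j, ‖y j‖ ≤ ∑ j : Fin (n + 1), (2 / √(l : ℝ) +
          if j = Fin.last n then 2 * √(1 / (K : ℝ)) else 0) := by
          refine Finset.sum_le_sum fun j _ => ?_
          by_cases hj : j = Fin.last n
          · rw [hj, if_pos rfl]
            have : 0 ≤ 2 / √(l : ℝ) := by positivity
            linarith
          · rw [if_neg hj]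
            linarith [hyne j hj]
      _ = _ := by
          rw [Finset.sum_add_distrib, Finset.sum_const, Finset.card_univ, Fintype.card_fin,
            Finset.sum_ite_eq' Finset.univ (Fin.last n)]
          simp
  obtain ⟨σ, hσ⟩ : ∃ σ : Equiv.Perm (Fin (n + 1)),
    σ = (Equiv.subLeft (1 : Fin (n + 1))) * (Equiv.neg (Fin (n + 1))) := ⟨_, rfl⟩
  obtain ⟨X', hX'⟩ : ∃ X' : Fin (n + 1) → B,
      X' = fun j : Fin (n + 1) => ζ ((j : ℕ) + 1) * CC x (m + K) := ⟨_, rfl⟩
  have nC : ‖CC x (m + K)‖ ≤ 1 :=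
    norm_le_one_of_star_mul (rr_star x _) (rr_mul hx _) (CC_star_mul hx _)
  have hw2 : ‖w - 1‖ ≤ 2 := by
    have e1 := norm_le_of_unitary hw'.1
    have e2 : ‖(1 : B)‖ ≤ 1 := norm_le_one_of_proj (star_one B) (mul_one 1)
    exact (norm_sub_le _ _).trans (by linarith)
  have hstep : ∀ i, ‖X' (σ i) - X i‖ ≤ η := by
    intro i
    have hv := sigma_val n i
    rw [← hσ] at hv
    rw [hX', hX]
    by_cases hi : i = Fin.last n
    · rw [if_pos hi] at hv
      simp only [hi, if_true]
      rw [hi] at hv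
      rw [hv, ← sub_mul]
      calc ‖(ζ (0 + 1) - ζ 0) * CC x (m + K)‖ ≤ ‖ζ (0 + 1) - ζ 0‖ * ‖CC x (m + K)‖ :=
            norm_mul_le _ _
        _ ≤ η * 1 := mul_le_mul (hs 0 (Nat.zero_le n)) nC (norm_nonneg _) hη
        _ = η := mul_one η
    · rw [if_neg hi] at hv
      simp only [hi, if_false]
      rw [hv, ← sub_mul]
      have hin : (i : ℕ) + 1 ≤ n := by
        have h1 : (i : ℕ) ≠ n := fun h => hi (Fin.ext (by simpa using h))
        have h2 := i.2
        omega
      calc ‖(ζ ((i : ℕ) + 1 + 1) - ζ ((i : ℕ) + 1)) * CC x (m + K)‖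
          ≤ ‖ζ ((i : ℕ) + 1 + 1) - ζ ((i : ℕ) + 1)‖ * ‖CC x (m + K)‖ := norm_mul_le _ _
        _ ≤ η * 1 := mul_le_mul (hs _ hin) nC (norm_nonneg _) hη
        _ = η := mul_one η
  have hcore := hF.core hx (w := w) X X' y (Fin.last n) (fun i => by rw [hy]; simp only; abel)
    (fun i => (hXf i).1) (fun i => (hXf i).2.2.1) (fun i => (hXf i).2.2.2) hw2
    (fun i hi => by rw [hX, hX']; simp only [hi, if_false])
    (by rw [hX, hX', hw]; simp [h0]) σ hη hstep
  rw [hlast, omega_eq hx hw'.1 hw'.2.2] at hcore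
  -- the fixed elements
  obtain ⟨N, hN⟩ : ∃ N, N = 2 * L + 1 + (n + 1) * L * l := ⟨_, rfl⟩
  have hhN : ∀ j, star (h j) * EE x N = 0 := by
    intro j
    have e1 : rr x N * h j = h j := by
      by_cases hj : j = Fin.last n
      · rw [hj, hlast]
        exact rr_gg hx (by omega)
      · rw [hne j hj]
        refine rr_hk hx _ ?_
        have h1 : ((j : ℕ) + 1) * L * l ≤ (n + 1) * L * l :=
          Nat.mul_le_mul_right l (Nat.mul_le_mul_right L (by omega))
        omega
    have e2 : EE x N * h j = 0 := by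
      rw [rr, sub_mul, one_mul] at e1
      have := sub_eq_self.1 e1
      exact this
    have := congrArg star e2
    rwa [star_mul, EE_star, star_zero] at this
  have hhp : ∀ j, star (h j) * pp x = 0 := by
    intro j
    have e2 : pp x * h j = 0 := by
      by_cases hj : j = Fin.last n
      · rw [hj, hlast, pp_gg hx]
      · rw [hne j hj, pp_hk hx]
    have := congrArg star e2
    rwa [star_mul, pp_star, star_zero] at this
  refine ⟨N, zz h σ, ?_, ?_⟩
  · rw [hσ, ← hF.zz_mul]
    refine (ChF_zz hF hhN ?_).mul (ChF_zz hF hhN ?_)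
    · ext i
      simp [Equiv.Perm.mul_apply]
    · ext i
      simp [Equiv.Perm.mul_apply]
  · rw [← hw]
    obtain ⟨ω, hω⟩ : ∃ ω, ω = 1 + x ^ (m + K + 2) * (w - 1) * star (x ^ (m + K + 2)) := ⟨_, rfl⟩
    rw [← hω] at hcore ⊢
    have hωp : ω * pp x = pp x := by
      have e1 : star (x ^ (m + K + 2)) * pp x = 0 := by
        rw [pow_succ', star_mul, mul_assoc, star_x_pp hx, mul_zero]
      rw [hω, add_mul, one_mul, mul_assoc, e1, mul_zero, add_zero]
    have hzp : zz h σ * pp x = pp x := zz_fix hhp σ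
    have hz1 : zz h σ = zz h σ * x * star x + pp x := by
      have e1 : x * star x = 1 - pp x := by rw [pp]; abel
      rw [mul_assoc, e1, mul_sub, mul_one, hzp, sub_add_cancel]
    have e : ω * th x (zz h σ) - zz h σ = (ω * x * zz h σ - zz h σ * x) * star x := by
      have e2 : ω * th x (zz h σ) = ω * x * zz h σ * star x + pp x := by
        rw [th, mul_add, hωp]; simp only [mul_assoc]
      rw [e2, sub_mul]
      nth_rewrite 2 [hz1]
      abel
    rw [e]
    have nx : ‖star x‖ ≤ 1 := by rw [norm_star]; exact norm_x_le hx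
    calc ‖(ω * x * zz h σ - zz h σ * x) * star x‖
        ≤ ‖ω * x * zz h σ - zz h σ * x‖ * ‖star x‖ := norm_mul_le _ _
      _ ≤ ‖ω * x * zz h σ - zz h σ * x‖ * 1 := mul_le_mul_of_nonneg_left nx (norm_nonneg _)
      _ ≤ η + 4 * (∑ i, ‖y i‖) + 2 * ‖y (Fin.last n)‖ := by rw [mul_one]; exact hcore
      _ ≤ η + 4 * ((n + 1) * (2 / √(l : ℝ)) + 2 * √(1 / (K : ℝ))) +
            2 * (2 * √(1 / (K : ℝ))) := by gcongr
      _ = η + 8 * (n + 1) / √(l : ℝ) + 12 * √(1 / (K : ℝ)) := by ring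

/-- The accumulated product `w th(w) ⋯ th^(k-1)(w)`. -/
noncomputable def um (x w : B) : ℕ → B
  | 0 => 1
  | k + 1 => w * th x (um x w k)

theorem um_spec (hx : star x * x = 1) (w : B) (k : ℕ) :
    w * th x (um x w k) = um x w k * (1 + x ^ k * (w - 1) * star (x ^ k)) := by
  induction k with
  | zero => simp [um, th_one]
  | succ k ih =>
    have h1 : th x (1 + x ^ k * (w - 1) * star (x ^ k)) =
        1 + x ^ (k + 1) * (w - 1) * star (x ^ (k + 1)) := by
      rw [th, pp, pow_succ', star_mul]; noncomm_ring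
    rw [← h1]
    change w * th x (w * th x (um x w k)) = w * th x (um x w k) * _
    rw [mul_assoc, th_mul hx, ih]

theorem um_ChF (hx : star x * x = 1) {m : ℕ} {w : B} (hw : ChF (EE x m) w) (k : ℕ) :
    ChF (EE x (m + k)) (um x w k) := by
  induction k with
  | zero => exact ChF_one _
  | succ k ih => exact (hw.mono hx (by omega)).mul (ih.th hx)

theorem exists_small {c ε : ℝ} (hc : 0 ≤ c) (hε : 0 < ε) : ∃ K : ℕ, 0 < K ∧ c / √(K : ℝ) ≤ ε := by
  obtain ⟨k, hk⟩ := exists_nat_gt (c / ε)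
  have hk0 : (0 : ℝ) < k := lt_of_le_of_lt (by positivity) hk
  refine ⟨k ^ 2, by have : 0 < k := by exact_mod_cast hk0
                    positivity, ?_⟩
  push_cast
  rw [Real.sqrt_sq hk0.le, div_le_iff₀ hk0]
  have := (div_lt_iff₀ hε).1 hk
  linarith

theorem loop_sol {B : Type} [CStarAlgebra B] {T : B} (hT : star T * T = 1) {m : ℕ} {w : B}
    (hw : ChF (T ^ m * star (T ^ m)) w) {ε : ℝ} (hε : 0 < ε) :
    ∃ (M : ℕ) (z : B), ChF (T ^ M * star (T ^ M)) z ∧
      ‖star z * w * (T * z * star T + (1 - T * star T)) - 1‖ ≤ ε := by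
  have hw' : ChF (EE T m) w := hw
  obtain ⟨n, ζ, h0, hn, hζ, hs⟩ := hw' (ε / 2) (by positivity)
  obtain ⟨K, hK, hK'⟩ := exists_small (c := 12) (ε := ε / 4) (by norm_num) (by positivity)
  obtain ⟨l, hl, hl'⟩ := exists_small (c := 8 * ((n : ℝ) + 1)) (ε := ε / 4) (by positivity)
    (by positivity)
  obtain ⟨ξ, hξ⟩ : ∃ ξ : ℕ → B, ξ = fun i => ζ (min i n) := ⟨_, rfl⟩
  have hξn : ξ (n + 1) = w := by rw [hξ]; simp [hn]
  obtain ⟨N, z, hz, hz'⟩ := loop_shift hT (m := m) (n := n) hK hl (ζ := ξ)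
    (by rw [hξ]; simp [h0]) (fun i => by rw [hξ]; exact hζ _) (η := ε / 2) (by positivity)
    (fun i hi => by
      rw [hξ]
      simp only
      rcases Nat.lt_or_ge i n with h | h
      · rw [min_eq_left (show i + 1 ≤ n from h), min_eq_left h.le]
        exact hs i h
      · rw [min_eq_right (by omega), min_eq_right h, sub_self, norm_zero]
        positivity)
  rw [hξn] at hz'
  obtain ⟨U, hU⟩ : ∃ U, U = um T w (m + K + 2) := ⟨_, rfl⟩
  obtain ⟨ω, hω⟩ : ∃ ω, ω = 1 + T ^ (m + K + 2) * (w - 1) * star (T ^ (m + K + 2)) := ⟨_, rfl⟩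
  have hUs := um_spec hT w (m + K + 2)
  rw [← hU, ← hω] at hUs
  rw [← hω] at hz'
  have hUc : ChF (EE T (m + (m + K + 2))) U := by rw [hU]; exact um_ChF hT hw' _
  obtain ⟨M, hM⟩ : ∃ M, M = max (m + (m + K + 2)) N := ⟨_, rfl⟩
  have hzM : ChF (EE T M) z := hz.mono hT (by rw [hM]; exact le_max_right _ _)
  have hUM : ChF (EE T M) U := hUc.mono hT (by rw [hM]; exact le_max_left _ _)
  refine ⟨M, U * z, hUM.mul hzM, ?_⟩
  have e1 : T * (U * z) * star T + (1 - T * star T) = th T U * th T z := by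
    rw [th_mul hT]; rfl
  have e2 : star (U * z) * w * (th T U * th T z) - 1 = star z * (ω * th T z - z) := by
    have hu1 := hUM.spec.1
    have hz1 := hzM.spec.1
    calc star (U * z) * w * (th T U * th T z) - 1
        = star z * (star U * (w * th T U)) * th T z - 1 := by
          rw [star_mul]; simp only [mul_assoc]
      _ = star z * (star U * (U * ω)) * th T z - 1 := by rw [hUs]
      _ = star z * ((star U * U) * ω) * th T z - star z * z := by
          rw [hz1]; simp only [mul_assoc]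
      _ = star z * (ω * th T z - z) := by rw [hu1, one_mul, mul_sub, mul_assoc]
  rw [e1, e2]
  have nz : ‖star z‖ ≤ 1 := by rw [norm_star]; exact norm_le_of_unitary hzM.spec.1
  have e3 : √(1 / (K : ℝ)) = 1 / √(K : ℝ) := by rw [Real.sqrt_div zero_le_one, Real.sqrt_one]
  calc ‖star z * (ω * th T z - z)‖ ≤ ‖star z‖ * ‖ω * th T z - z‖ := norm_mul_le _ _
    _ ≤ 1 * ‖ω * th T z - z‖ := mul_le_mul_of_nonneg_right nz (norm_nonneg _)
    _ ≤ ε / 2 + 8 * (n + 1) / √(l : ℝ) + 12 * √(1 / (K : ℝ)) := by rw [one_mul]; exact hz'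
    _ ≤ ε / 2 + ε / 4 + ε / 4 := by
        rw [e3]
        have : 12 * (1 / √(K : ℝ)) = 12 / √(K : ℝ) := by ring
        rw [this]
        gcongr
    _ = ε := by ring

end Pool.Agent.LPS
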